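import Pool.Agent.GFC.St

/-! # GFC, statement APX: isomorphic stages (helper76) -/

set_option autoImplicit false

namespace GFC

open FirstOrder Set Pool.Agent.Helper6.Str Pool.Agent.Helper5.Multi
open CTQ (FG Vr ModG)

/-- unsigned literals -/
private abbrev ULit {L : FirstOrder.Language.{0, 0}} {V : Type} (F : ℕ → FG L V) (N : ℕ) : Type :=
  ((k : ℕ) × ((F k).fv → Fin N)) ⊕ (((n : ℕ) × (L.Relations n × (Fin n → Fin N))) ⊕ (ℕ × Fin N))

/-- an enumeration with the same literals -/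
private theorem exists_enum {L : FirstOrder.Language.{0, 0}} {V : Type} {F : ℕ → FG L V}
    {S S' : L.Structure ℕ} {j N : ℕ} (hf' : (FJ F S' j).Finite)
    (h : ∀ s : Finset (Lit F N), Ex F S j N s → Ex F S' j N s) {x : Fin N → ℕ}
    (hx : Function.Injective x) (hr : range x = FJ F S j) :
    ∃ y : Fin N → ℕ, Function.Injective y ∧ range y = FJ F S' j ∧
      ∀ p : ULit F N, LitT F S' y p ↔ LitT F S x p := by
  classical
  by_contra hno
  push Not at hno
  have hno' : ∀ y : Fin N → ℕ, Function.Injective y → range y = FJ F S' j →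
      ∃ p : ULit F N, ¬ (LitT F S' y p ↔ LitT F S x p) := by
    intro y h1 h2
    obtain ⟨p, hp⟩ := hno y h1 h2
    refine ⟨p, fun h3 => ?_⟩
    rcases hp with h4 | h4
    · exact h4.2 (h3.1 h4.1)
    · exact h4.1 (h3.2 h4.2)
  have hfin : {y : Fin N → ℕ | Function.Injective y ∧ range y = FJ F S' j}.Finite := by
    refine (Set.Finite.pi' (fun _ : Fin N => hf')).subset ?_
    rintro y ⟨-, hy⟩ i
    rw [← hy]
    exact ⟨i, rfl⟩
  have hch : ∀ y : Fin N → ℕ, ∃ p : ULit F N, Function.Injective y → range y = FJ F S' j →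
      ¬ (LitT F S' y p ↔ LitT F S x p) := by
    intro y
    by_cases h1 : Function.Injective y ∧ range y = FJ F S' j
    · obtain ⟨p, hp⟩ := hno' y h1.1 h1.2
      exact ⟨p, fun _ _ => hp⟩
    · -- there is some literal, or nothing to prove
      by_cases h2 : Nonempty (ULit F N)
      · obtain ⟨p⟩ := h2
        exact ⟨p, fun h3 h4 => absurd ⟨h3, h4⟩ h1⟩
      · exfalso
        obtain ⟨y', hy1, hy2, -⟩ := h ∅ ⟨x, hx, hr, fun t ht => absurd ht (Finset.notMem_empty t)⟩
        obtain ⟨p, -⟩ := hno' y' hy1 hy2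
        exact h2 ⟨p⟩
  choose P hP using hch
  obtain ⟨y, hy1, hy2, hy3⟩ := h
    (hfin.toFinset.image fun y => ((P y, decide (LitT F S x (P y))) : Lit F N))
    ⟨x, hx, hr, by
      intro t ht
      rw [Finset.mem_image] at ht
      obtain ⟨y, -, rfl⟩ := ht
      show LitT F S x (P y) ↔ decide (LitT F S x (P y)) = true
      exact decide_eq_true_iff.symm⟩
  have h1 : LitS F S' y ((P y, decide (LitT F S x (P y))) : Lit F N) :=
    hy3 _ (Finset.mem_image.2 ⟨y, hfin.mem_toFinset.2 ⟨hy1, hy2⟩, rfl⟩)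
  have h2 : LitT F S' y (P y) ↔ decide (LitT F S x (P y)) = true := h1
  exact hP y hy1 hy2 (h2.trans decide_eq_true_iff)

/-- [APX] Isomorphic stages. -/
theorem thm_APX (hFIN : St_FIN) : St_APX := by
  intro L V F S S' hF h j
  have hf := (hFIN L V ℕ F S hF).1 j
  have hf' := (hFIN L V ℕ F S' hF).1 j
  obtain ⟨N, x', hr⟩ := hf.fin_embedding
  obtain ⟨x, hx, hr⟩ : ∃ x : Fin N → ℕ, Function.Injective x ∧ range x = FJ F S j :=
    ⟨x', x'.injective, hr⟩
  obtain ⟨y, hy, hry, hlit⟩ := exists_enum hf' (h j N) hx hr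
  let ex : Fin N ≃ FJ F S j := (Equiv.ofInjective x hx).trans (Equiv.setCongr hr)
  let ey : Fin N ≃ FJ F S' j := (Equiv.ofInjective y hy).trans (Equiv.setCongr hry)
  have hex : ∀ a, (ex a).1 = x a := fun _ => rfl
  have hey : ∀ a, (ey a).1 = y a := fun _ => rfl
  have hex' : ∀ z : FJ F S j, z.1 = x (ex.symm z) := by
    intro z
    rw [← hex, Equiv.apply_symm_apply]
  refine ⟨ex.symm.trans ey, ?_, ?_, ?_⟩
  · intro i z
    have h1 : y (ex.symm z) ∈ FJ F S' i ↔ x (ex.symm z) ∈ FJ F S i :=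
      hlit (.inr (.inr (i, ex.symm z)))
    rw [← hex' z] at h1
    exact h1
  · intro n R z
    have h1 : S'.RelMap R (y ∘ fun i => ex.symm (z i)) ↔ S.RelMap R (x ∘ fun i => ex.symm (z i)) :=
      hlit (.inr (.inl ⟨n, (R, fun i => ex.symm (z i))⟩))
    have h2 : (fun i => (z i).1) = x ∘ fun i => ex.symm (z i) := funext fun i => hex' (z i)
    rw [h2]
    exact h1.symm
  · intro k v v' hv
    choose z hz1 hz2 using hv
    have h1 := hlit (.inl ⟨k, fun l : (F k).fv => ex.symm (z l.1 l.2)⟩)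
    have h2 : LitT F S x (.inl ⟨k, fun l : (F k).fv => ex.symm (z l.1 l.2)⟩ : ULit F N) ↔
        (F k).Sat S v := by
      constructor
      · rintro ⟨w, hw1, hw2⟩
        refine (FG.sat_congr S (F k) w v fun i hi => ?_).1 hw2
        have h3 := hw1 ⟨i, hi⟩
        rw [h3, hz1 i hi, hex' (z i hi)]
      · intro h3
        refine ⟨v, fun l => ?_, h3⟩
        rw [hz1 l.1 l.2, hex' (z l.1 l.2)]
    have h3 : LitT F S' y (.inl ⟨k, fun l : (F k).fv => ex.symm (z l.1 l.2)⟩ : ULit F N) ↔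
        (F k).Sat S' v' := by
      constructor
      · rintro ⟨w, hw1, hw2⟩
        refine (FG.sat_congr S' (F k) w v' fun i hi => ?_).1 hw2
        have h4 := hw1 ⟨i, hi⟩
        rw [h4, hz2 i hi]
        rfl
      · intro h4
        refine ⟨v', fun l => ?_, h4⟩
        rw [hz2 l.1 l.2]
        rfl
    exact h2.symm.trans (h1.symm.trans h3)

end GFC
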