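import Pool.Agent.GFC.St

/-!
# GFC, module CGR (helper25): isomorphic families of pieces
-/

set_option autoImplicit false
set_option linter.unusedVariables false

namespace GFC

open FirstOrder Set Pool.Agent.Helper6.Str Pool.Agent.Helper5.Multi
open CTQ (FG Vr ModG)

/-- the positions in the pieces as a disjoint union -/
private def cgrPair {L : FirstOrder.Language.{0, 0}} {V : Type} {F : ℕ → FG L V}
    {S₀ : L.Structure ℕ} {I : Type} (P : I → Pc F S₀) :
    {p : I × ℕ // p.2 ∈ (P p.1).el} ≃ Σ i : I, ((P i).el : Set ℕ) where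
  toFun p := ⟨p.1.1, ⟨p.1.2, p.2⟩⟩
  invFun s := ⟨(s.1, s.2.1), s.2.2⟩
  left_inv _ := rfl
  right_inv _ := rfl

/-- CGR -/
theorem thm_CGR (hRES : St_RES) : St_CGR := by
  intro L _ V F S₀ I I' P P' τ h
  choose e he using h
  let E : Pos (Core F S₀) Pc.el P ≃ Pos (Core F S₀) Pc.el P' :=
    Equiv.sumCongr (Equiv.refl _)
      ((cgrPair P).trans ((Equiv.sigmaCongr τ e).trans (cgrPair P').symm))
  have hE : ∀ i, ∀ x : Core F S₀ ⊕ (P i).el, E (inc P i x) = inc P' (τ i) (sm (e i) x) := by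
    rintro i (a | x)
    · rfl
    · rfl
  have hE0 : ∀ a : Core F S₀, E (Sum.inl a) = Sum.inl a := fun a => rfl
  refine ⟨E, ?_, hE0⟩
  intro n R v
  constructor
  · rintro (⟨y, rfl, hy⟩ | ⟨i, y, rfl, hy⟩)
    · exact Or.inl ⟨y, rfl, hy⟩
    · refine Or.inr ⟨τ i, sm (e i) ∘ y, ?_, (he i n R y).1 hy⟩
      funext k
      exact hE i (y k)
  · rintro (⟨y, hv, hy⟩ | ⟨i', y, hv, hy⟩)
    · refine Or.inl ⟨y, ?_, hy⟩
      funext k
      exact E.injective ((congrFun hv k).trans (hE0 (y k)).symm)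
    · obtain ⟨i, rfl⟩ := τ.surjective i'
      have hy' : sm (e i) ∘ ((sm (e i)).symm ∘ y) = y := by
        funext k
        exact (sm (F := F) (S₀ := S₀) (e i)).apply_symm_apply (y k)
      refine Or.inr ⟨i, (sm (e i)).symm ∘ y, ?_, ?_⟩
      · funext k
        refine E.injective ?_
        rw [show (inc P i ∘ (sm (e i)).symm ∘ y) k = inc P i ((sm (e i)).symm (y k)) from rfl, hE,
          Equiv.apply_symm_apply]
        exact congrFun hv k
      · rw [he i n R, hy']
        exact hy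

end GFC
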