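import Pool.Agent.GFC.St

/-!
# GFC, module CON (file name CONX: CON is a reserved file name): the components of an assembled structure over the core (helper57)
-/

set_option autoImplicit false
set_option linter.unusedVariables false
set_option linter.unusedSectionVars false

namespace GFC

open FirstOrder Set Pool.Agent.Helper6.Str Pool.Agent.Helper5.Multi
open CTQ (FG Vr ModG)

section

variable {L : FirstOrder.Language.{0, 0}} [∀ n, IsEmpty (L.Functions n)] {V : Type}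
  {F : ℕ → FG L V} {S₀ : L.Structure ℕ} {I : Type} {P : I → Pc F S₀}

/-- a link stays in the piece -/
private theorem con_link (p : {p : I × ℕ // p.2 ∈ (P p.1).el}) (b : Pos (Core F S₀) Pc.el P)
    (h : Lk (asmG P) (range Sum.inl) (Sum.inr p) b) :
    ∃ q : {p : I × ℕ // p.2 ∈ (P p.1).el}, b = Sum.inr q ∧ q.1.1 = p.1.1 := by
  obtain ⟨ha, hb, n, R, x, hR, ⟨k, hk⟩, ⟨k', hk'⟩⟩ := h
  rcases hR with ⟨y, hy, -⟩ | ⟨i, y, hy, -⟩
  · exact absurd ⟨y k, (congrFun hy k).symm.trans hk⟩ ha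
  · have h1 : inc P i (y k) = Sum.inr p := (congrFun hy k).symm.trans hk
    have h2 : inc P i (y k') = b := (congrFun hy k').symm.trans hk'
    have h3 : p.1.1 = i := by
      rcases hz : y k with c | z
      · rw [hz] at h1
        exact absurd ⟨c, h1⟩ ha
      · rw [hz] at h1
        have h4 : (⟨(i, z.1), z.2⟩ : {p : I × ℕ // p.2 ∈ (P p.1).el}) = p := Sum.inr.inj h1
        rw [← h4]
    rcases hz : y k' with c | z
    · rw [hz] at h2
      exact absurd ⟨c, h2⟩ hb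
    · rw [hz] at h2
      exact ⟨⟨(i, z.1), z.2⟩, h2.symm, h3.symm⟩

private theorem con_chain (p : {p : I × ℕ // p.2 ∈ (P p.1).el}) (b : Pos (Core F S₀) Pc.el P)
    (h : Relation.ReflTransGen (Lk (asmG P) (range Sum.inl)) (Sum.inr p) b) :
    ∃ q : {p : I × ℕ // p.2 ∈ (P p.1).el}, b = Sum.inr q ∧ q.1.1 = p.1.1 := by
  induction h with
  | refl => exact ⟨p, rfl, rfl⟩
  | tail _ h ih =>
    obtain ⟨q, hq, h1⟩ := ih
    rw [hq] at h
    obtain ⟨q', hq', h2⟩ := con_link q _ h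
    exact ⟨q', hq', h2.trans h1⟩

private theorem con_inc (i : I) (a : Core F S₀ ⊕ (P i).el)
    (h : a ∉ range (Sum.inl : Core F S₀ → Core F S₀ ⊕ (P i).el)) :
    inc P i a ∉ range (Sum.inl : Core F S₀ → Pos (Core F S₀) Pc.el P) := by
  rcases a with c | z
  · exact absurd ⟨c, rfl⟩ h
  · rintro ⟨c, hc⟩
    have h1 : (Sum.inl c : Pos (Core F S₀) Pc.el P) = Sum.inr ⟨(i, z.1), z.2⟩ := hc
    exact Sum.inl_ne_inr h1

end

theorem thm_CON (hRES : St_RES) : St_CON := by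
  intro L _ V F S₀ I P p q
  constructor
  · intro h
    obtain ⟨q', hq', h1⟩ := con_chain p _ h
    have h2 : q = q' := Sum.inr.inj hq'
    rw [h2, h1]
  · intro h
    obtain ⟨⟨i, x⟩, hx⟩ := p
    obtain ⟨⟨i', y⟩, hy⟩ := q
    have h' : i = i' := h
    subst h'
    obtain ⟨S, κ, hI⟩ := (P i).isp
    refine Relation.ReflTransGen.lift (inc P i) ?_ _ _ (hI.conn ⟨x, hx⟩ ⟨y, hy⟩)
    rintro a b ⟨ha, hb, n, R, z, hR, ⟨k, hk⟩, ⟨k', hk'⟩⟩
    exact ⟨con_inc i a ha, con_inc i b hb, n, R, inc P i ∘ z,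
      ((hRES L V F S₀ I P).1 i n R z).2 hR, ⟨k, congrArg (inc P i) hk⟩,
      ⟨k', congrArg (inc P i) hk'⟩⟩

end GFC
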