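import Pool.Agent.GFC.St

/-!
# GFC, [CPC]: the piece of a component (helper56)
-/

set_option autoImplicit false

namespace GFC

open FirstOrder Set Pool.Agent.Helper6.Str Pool.Agent.Helper5.Multi
open CTQ (FG Vr ModG)

private theorem cpc_symm {L : FirstOrder.Language.{0, 0}} {N : Type} (T : L.Structure N)
    (B : Set N) {a b : N} (h : Lk T B a b) : Lk T B b a :=
  ⟨h.2.1, h.1, by
    obtain ⟨n, R, x, h1, h2, h3⟩ := h.2.2
    exact ⟨n, R, x, h1, h3, h2⟩⟩

private theorem cpc_rev {L : FirstOrder.Language.{0, 0}} {N : Type} (T : L.Structure N)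
    (B : Set N) {a b : N} (h : Relation.ReflTransGen (Lk T B) a b) :
    Relation.ReflTransGen (Lk T B) b a := by
  induction h with
  | refl => exact Relation.ReflTransGen.refl
  | tail _ h ih => exact Relation.ReflTransGen.head (cpc_symm T B h) ih

theorem thm_CPC : St_CPC := by
  intro L _ V F S₀ S g hg x₀ hx₀ el hel
  have hout : ∀ x ∈ el, x ∉ range g := by
    intro x hx
    rw [hel] at hx
    induction hx with
    | refl => exact hx₀
    | tail _ h _ => exact h.2.1
  have hx0 : x₀ ∈ el := by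
    rw [hel]
    exact Relation.ReflTransGen.refl
  have hstep : ∀ x ∈ el, ∀ y, Lk S (range g) x y → y ∈ el := by
    intro x hx y hxy
    rw [hel] at hx ⊢
    exact Relation.ReflTransGen.tail hx hxy
  have hκ : Function.Injective (Sum.elim g Subtype.val : Core F S₀ ⊕ el → ℕ) := by
    rintro (a | a) (b | b) h
    · exact congrArg Sum.inl (hg.injg h)
    · exact absurd ⟨a, h⟩ (hout b.1 b.2)
    · exact absurd ⟨b, h.symm⟩ (hout a.1 a.2)
    · exact congrArg Sum.inr (Subtype.ext h)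
  have hcmp : ∀ (n : ℕ) (R : L.Relations n) (y : Fin n → ℕ), S.RelMap R y → ∀ (x : el)
      (i : Fin n), y i = x.1 → ∀ i', y i' ∈ range (Sum.elim g Subtype.val : Core F S₀ ⊕ el → ℕ) := by
    intro n R y hy x i hi i'
    by_cases h : y i' ∈ range g
    · obtain ⟨a, ha⟩ := h
      exact ⟨Sum.inl a, ha⟩
    · refine ⟨Sum.inr ⟨y i', ?_⟩, rfl⟩
      refine hstep x.1 x.2 (y i') ⟨hout x.1 x.2, h, n, R, y, hy, ⟨i, hi⟩, ⟨i', rfl⟩⟩
  let str : L.Structure (Core F S₀ ⊕ el) :=
    { funMap := fun {n} f => (isEmptyElim f : (Fin n → Core F S₀ ⊕ el) → Core F S₀ ⊕ el)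
      RelMap := fun {n} R x => S.RelMap R (Sum.elim g Subtype.val ∘ x) }
  have hrel : ∀ (n : ℕ) (R : L.Relations n) (x : Fin n → Core F S₀ ⊕ el),
      str.RelMap R x ↔ S.RelMap R (Sum.elim g Subtype.val ∘ x) := fun _ _ _ => Iff.rfl
  have hlift : ∀ x y : el, Lk S (range g) x.1 y.1 →
      Lk str (range Sum.inl) (Sum.inr x) (Sum.inr y) := by
    intro x y h
    obtain ⟨n, R, u, hu, ⟨i, hi⟩, ⟨j, hj⟩⟩ := h.2.2
    have hy := hcmp n R u hu x i hi
    choose w hw using hy
    have hw' : Sum.elim g Subtype.val ∘ w = u := funext hw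
    have hn : ∀ z : el, (Sum.inr z : Core F S₀ ⊕ el) ∉ range (Sum.inl : Core F S₀ → _) := by
      rintro z ⟨a, ha⟩
      cases ha
    refine ⟨hn x, hn y, n, R, w, ?_, ⟨i, hκ ?_⟩, ⟨j, hκ ?_⟩⟩
    · rw [hrel, hw']
      exact hu
    · rw [hw i, hi]
      rfl
    · rw [hw j, hj]
      rfl
  have hchain : ∀ z : ℕ, Relation.ReflTransGen (Lk S (range g)) x₀ z → ∀ hz : z ∈ el,
      Relation.ReflTransGen (Lk str (range Sum.inl)) (Sum.inr ⟨x₀, hx0⟩) (Sum.inr ⟨z, hz⟩) := by
    intro z h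
    induction h with
    | refl => exact fun _ => Relation.ReflTransGen.refl
    | tail h1 h2 ih =>
      intro hz
      rename_i b c
      have hb : b ∈ el := by
        rw [hel]
        exact h1
      exact Relation.ReflTransGen.tail (ih hb) (hlift ⟨b, hb⟩ ⟨c, hz⟩ h2)
  have hel' : ∀ z ∈ el, Relation.ReflTransGen (Lk S (range g)) x₀ z := by
    intro z hz
    rw [hel] at hz
    exact hz
  refine ⟨str, ⟨⟨x₀, hx0⟩, ?_, hκ, hg, hrel, ?_⟩⟩
  · intro x y
    exact (cpc_rev str (range Sum.inl) (hchain x.1 (hel' x.1 x.2) x.2)).trans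
      (hchain y.1 (hel' y.1 y.2) y.2)
  · intro n R y hy x i hi
    exact hcmp n R y hy x i hi

end GFC
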