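import Pool.Agent.GFC.St

/-!
# GFC, module CRE: countably many cores
-/

set_option autoImplicit false
set_option linter.unusedVariables false

namespace GFC

open FirstOrder Set Pool.Agent.Helper6.Str Pool.Agent.Helper5.Multi
open CTQ (FG Vr ModG)

theorem thm_CRE (hSMB : St_SMB) (hMEX : St_MEX) (hIVE : St_IVE) (hAPX : St_APX)
    (hKOE : St_KOE) : St_CRE := by
  classical
  intro L _ _ V F hF h0 hP hne
  obtain ⟨S₁, hS₁⟩ := hne
  have hfin : ∀ k, Finite ((F k).fv) := fun k => (hF.fin k).to_subtype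
  have hLit : ∀ N, Countable (Lit F N) := by
    intro N
    have h1 : ∀ k, Countable ((F k).fv → Fin N) := fun k => inferInstance
    have h2 : Countable ((k : ℕ) × ((F k).fv → Fin N)) := inferInstance
    have h3 : Countable ((n : ℕ) × (L.Relations n × (Fin n → Fin N))) := inferInstance
    infer_instance
  have hι : Countable ((_ : ℕ) × ((N : ℕ) × Finset (Lit F N))) := inferInstance
  have hK : MeasurableSet {c : Code L | toStr c ∈ ModG (F 0)} := by
    have h1 : {c : Code L | toStr c ∈ ModG (F 0)} =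
        {c : Code L | (F 0).Sat (toStr c) (fun _ => 0)} := by
      ext c
      constructor
      · intro h
        exact h _
      · intro h v
        exact (FG.sat_of_closed _ h0 _ _).1 h
    rw [h1]
    exact (hSMB L V (F 0) (fun _ => 0)).1
  obtain ⟨ρ, hρ⟩ := Pool.Agent.Helper5.DU.ctbl_of_props hK hP (n := 0)
    (ι := (_ : ℕ) × ((N : ℕ) × Finset (Lit F N)))
    (fun k S _ => Ex F S k.1 k.2.1 k.2.2)
    (fun k _ => hMEX L V F hF k.1 k.2.1 k.2.2)
    (fun k S S' e _ he h => hIVE L V F S S' e he k.1 k.2.1 k.2.2 h)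
  refine ⟨fun m => if (ρ m).1 ∈ ModG (F 0) then (ρ m).1 else S₁, fun m => ?_, fun S hS => ?_⟩
  · by_cases h : (ρ m).1 ∈ ModG (F 0)
    · simp only [if_pos h]
      exact h
    · simp only [if_neg h]
      exact hS₁
  · obtain ⟨m, hm, hk⟩ := hρ S hS (fun i => i.elim0)
    refine ⟨m, ?_⟩
    simp only [if_pos hm]
    exact hKOE L V F (ρ m).1 S hF (hAPX L V F (ρ m).1 S hF
      fun j N s h => (hk ⟨j, ⟨N, s⟩⟩).2 h)

end GFC
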