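import Pool.Agent.GFC.St

/-!
# GFC, module DEA: transport of isomorphisms of pieces (helper18)
-/

set_option autoImplicit false
set_option linter.unusedVariables false

namespace GFC

open FirstOrder Set Pool.Agent.Helper6.Str Pool.Agent.Helper5.Multi
open CTQ (FG Vr ModG)

/-- [DEA] Transport of isomorphisms of pieces. -/
theorem thm_DEA (hRES : St_RES) : St_DEA := by
  intro L _ V F S₀ I I' P P' e α i j i' j' ei ej he hα hi hj hPI
  obtain ⟨ε, hε⟩ := hPI
  refine ⟨ei.symm.trans (ε.trans ej), ?_⟩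
  obtain ⟨ha, _, _⟩ := hRES L V F S₀ I P
  obtain ⟨ha', _, _⟩ := hRES L V F S₀ I' P'
  intro n R x
  have h1 : e ∘ (inc P i ∘ (Sum.map α.symm ei.symm ∘ x)) = inc P' i' ∘ x := by
    funext k
    show e (inc P i (Sum.map α.symm ei.symm (x k))) = inc P' i' (x k)
    rcases x k with a | y
    · show e (Sum.inl (α.symm a)) = Sum.inl a
      rw [hα, Equiv.apply_symm_apply]
    · show e (inc P i (Sum.inr (ei.symm y))) = inc P' i' (Sum.inr y)
      rw [hi, Equiv.apply_symm_apply]
  have h2 : e ∘ (inc P j ∘ (sm ε ∘ (Sum.map α.symm ei.symm ∘ x))) =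
      inc P' j' ∘ (sm (ei.symm.trans (ε.trans ej)) ∘ x) := by
    funext k
    show e (inc P j (sm ε (Sum.map α.symm ei.symm (x k)))) =
      inc P' j' (sm (ei.symm.trans (ε.trans ej)) (x k))
    rcases x k with a | y
    · show e (Sum.inl (α.symm a)) = Sum.inl a
      rw [hα, Equiv.apply_symm_apply]
    · show e (inc P j (Sum.inr (ε (ei.symm y)))) = inc P' j' (Sum.inr (ej (ε (ei.symm y))))
      rw [hj]
  rw [← ha' i' n R x, ← h1, ← he n R, ha i n R, hε n R, ← ha j n R, he n R, h2, ha' j' n R]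

end GFC
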