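import Pool.Agent.GFC.St

/-!
# GFC [DEC]: the decomposition is unique (helper67)
-/

set_option autoImplicit false

namespace GFC

open FirstOrder Set Pool.Agent.Helper6.Str Pool.Agent.Helper5.Multi
open CTQ (FG Vr ModG)

private theorem dec_lift {L : FirstOrder.Language.{0, 0}} {M N : Type} {T : L.Structure M}
    {T' : L.Structure N} {B : Set M} {B' : Set N} (e : M ≃ N) (he : RelIso T T' e)
    (hB : ∀ a, e a ∈ B' → a ∈ B) {a b : M} (h : Relation.ReflTransGen (Lk T B) a b) :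
    Relation.ReflTransGen (Lk T' B') (e a) (e b) := by
  have key : ∀ a b, Lk T B a b → Lk T' B' (e a) (e b) := by
    rintro a b ⟨h1, h2, n, R, x, h3, ⟨i, hi⟩, ⟨j, hj⟩⟩
    exact ⟨fun h4 => h1 (hB a h4), fun h4 => h2 (hB b h4), n, R, e ∘ x, (he n R x).1 h3,
      ⟨i, congrArg e hi⟩, ⟨j, congrArg e hj⟩⟩
  induction h with
  | refl => exact Relation.ReflTransGen.refl
  | tail _ h1 ih => exact ih.tail (key _ _ h1)

section

variable {L : FirstOrder.Language.{0, 0}} {V : Type} {F : ℕ → FG L V} {S₀ : L.Structure ℕ}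
  {I I' : Type} {P : I → Pc F S₀} {P' : I' → Pc F S₀}

private theorem dec_ne (p : Pc F S₀) : p.el.Nonempty := by
  obtain ⟨S, κ, h⟩ := p.isp
  exact h.ne

/-- the bijections of the core and of the points outside -/
private theorem dec_split (e : Pos (Core F S₀) Pc.el P ≃ Pos (Core F S₀) Pc.el P')
    (h1 : ∀ a, ∃ b, e (Sum.inl a) = Sum.inl b) (h2 : ∀ b, ∃ a, e (Sum.inl a) = Sum.inl b) :
    ∃ (α : Core F S₀ ≃ Core F S₀)
      (β : {p : I × ℕ // p.2 ∈ (P p.1).el} ≃ {p : I' × ℕ // p.2 ∈ (P' p.1).el}),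
      (∀ a, e (Sum.inl a) = Sum.inl (α a)) ∧ ∀ p, e (Sum.inr p) = Sum.inr (β p) := by
  have h3 : ∀ p, ∃ q, e (Sum.inr p) = Sum.inr q := by
    intro p
    rcases hp : e (Sum.inr p) with b | q
    · obtain ⟨a, ha⟩ := h2 b
      have h4 := e.injective (ha.trans hp.symm)
      exact absurd h4 (fun h => nomatch h)
    · exact ⟨q, rfl⟩
  have h4 : ∀ q, ∃ p, e (Sum.inr p) = Sum.inr q := by
    intro q
    rcases hq : e.symm (Sum.inr q) with a | p
    · obtain ⟨b, hb⟩ := h1 a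
      have h5 : e (Sum.inl a) = Sum.inr q := by rw [← hq, Equiv.apply_symm_apply]
      rw [hb] at h5
      exact absurd h5 (fun h => nomatch h)
    · exact ⟨p, by rw [← hq, Equiv.apply_symm_apply]⟩
  choose f hf using h1
  choose g hg using h3
  refine ⟨Equiv.ofBijective f ⟨?_, ?_⟩, Equiv.ofBijective g ⟨?_, ?_⟩, hf, hg⟩
  · intro a b hab
    have h5 : e (Sum.inl a) = e (Sum.inl b) := by rw [hf, hf, hab]
    exact Sum.inl.inj (e.injective h5)
  · intro b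
    obtain ⟨a, ha⟩ := h2 b
    exact ⟨a, Sum.inl.inj ((hf a).symm.trans ha)⟩
  · intro p q hpq
    have h5 : e (Sum.inr p) = e (Sum.inr q) := by rw [hg, hg, hpq]
    exact Sum.inr.inj (e.injective h5)
  · intro q
    obtain ⟨p, hp⟩ := h4 q
    exact ⟨p, Sum.inr.inj ((hg p).symm.trans hp)⟩

private theorem dec_ext {Q : I → Pc F S₀} {p q : {p : I × ℕ // p.2 ∈ (Q p.1).el}}
    (h1 : p.1.1 = q.1.1) (h2 : p.1.2 = q.1.2) : p = q :=
  Subtype.ext (Prod.ext h1 h2)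

/-- the bijections of the indices and of the pieces -/
private theorem dec_tau
    (β : {p : I × ℕ // p.2 ∈ (P p.1).el} ≃ {p : I' × ℕ // p.2 ∈ (P' p.1).el})
    (hβ : ∀ p q, p.1.1 = q.1.1 ↔ (β p).1.1 = (β q).1.1) :
    ∃ (τ : I ≃ I') (ε : ∀ i, (P i).el ≃ (P' (τ i)).el), ∀ i (x : (P i).el),
      β ⟨(i, x.1), x.2⟩ = ⟨(τ i, (ε i x).1), (ε i x).2⟩ := by
  choose x hx using fun i => dec_ne (P i)
  let t : I → I' := fun i => (β ⟨(i, x i), hx i⟩).1.1
  have ht : ∀ p, (β p).1.1 = t p.1.1 := fun p => (hβ p ⟨(p.1.1, x p.1.1), hx p.1.1⟩).1 rfl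
  have hinj : Function.Injective t := fun i j hij =>
    (hβ ⟨(i, x i), hx i⟩ ⟨(j, x j), hx j⟩).2 hij
  have hsurj : Function.Surjective t := by
    intro i'
    obtain ⟨y, hy⟩ := dec_ne (P' i')
    refine ⟨(β.symm ⟨(i', y), hy⟩).1.1, ?_⟩
    rw [← ht, Equiv.apply_symm_apply]
  have hmem : ∀ i (z : (P i).el), (β ⟨(i, z.1), z.2⟩).1.2 ∈ (P' (t i)).el := by
    intro i z
    have h1 := (β ⟨(i, z.1), z.2⟩).2
    rw [ht] at h1
    exact h1
  let f : ∀ i, (P i).el → (P' (t i)).el := fun i z => ⟨(β ⟨(i, z.1), z.2⟩).1.2, hmem i z⟩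
  have hf : ∀ i, Function.Bijective (f i) := by
    intro i
    constructor
    · intro z w hzw
      have h1 : (β ⟨(i, z.1), z.2⟩).1.2 = (β ⟨(i, w.1), w.2⟩).1.2 := congrArg Subtype.val hzw
      have h2 : (β ⟨(i, z.1), z.2⟩).1.1 = (β ⟨(i, w.1), w.2⟩).1.1 := (ht ⟨(i, z.1), z.2⟩).trans
        (ht ⟨(i, w.1), w.2⟩).symm
      have h3 := β.injective (dec_ext h2 h1)
      have h4 : z.1 = w.1 := congrArg (fun p => p.1.2) h3
      exact Subtype.ext h4
    · intro y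
      have h1 : t (β.symm ⟨(t i, y.1), y.2⟩).1.1 = t i := by
        rw [← ht, Equiv.apply_symm_apply]
      have h2 := hinj h1
      have h3 : (β.symm ⟨(t i, y.1), y.2⟩).1.2 ∈ (P i).el := by
        have h4 := (β.symm ⟨(t i, y.1), y.2⟩).2
        rw [h2] at h4
        exact h4
      refine ⟨⟨_, h3⟩, Subtype.ext ?_⟩
      have h5 : (⟨(i, (β.symm ⟨(t i, y.1), y.2⟩).1.2), h3⟩ : {p : I × ℕ // p.2 ∈ (P p.1).el}) =
          β.symm ⟨(t i, y.1), y.2⟩ := dec_ext h2.symm rfl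
      show (β ⟨(i, (β.symm ⟨(t i, y.1), y.2⟩).1.2), h3⟩).1.2 = y.1
      rw [h5, Equiv.apply_symm_apply]
  refine ⟨Equiv.ofBijective t ⟨hinj, hsurj⟩, fun i => Equiv.ofBijective (f i) (hf i), ?_⟩
  intro i z
  exact dec_ext (ht _) rfl

end

/-- [DEC] -/
theorem thm_DEC (hFJE : St_FJE) (hGIS : St_GIS) (hCON : St_CON) (hDEA : St_DEA) : St_DEC := by
  intro L _ V F S₀ I I' P P' hF hM hM' hI
  obtain ⟨e, he⟩ := hI
  have hr : Core F S₀ = range (Subtype.val : Core F S₀ → ℕ) := Subtype.range_coe.symm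
  have hc1 : Core F (asmG P') = range (Sum.inl : Core F S₀ → Pos (Core F S₀) Pc.el P') :=
    (hFJE L V ℕ _ _ F S₀ (asmG P') _ _ hF hM'.2).2.2.2 hr
  have hg := hGIS L V ℕ _ _ _ F S₀ (asmG P) (asmG P') _ _ e he hM.2
  have hc2 : Core F (asmG P') = range (e ∘ (Sum.inl : Core F S₀ → Pos (Core F S₀) Pc.el P)) :=
    (hFJE L V ℕ _ _ F S₀ (asmG P') _ _ hF hg).2.2.2 hr
  have hc := hc1.symm.trans hc2
  have h1 : ∀ a : Core F S₀, ∃ b : Core F S₀, e (Sum.inl a) = Sum.inl b := by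
    intro a
    have h2 : e (Sum.inl a) ∈ range (Sum.inl : Core F S₀ → Pos (Core F S₀) Pc.el P') := by
      rw [hc]
      exact ⟨a, rfl⟩
    obtain ⟨b, hb⟩ := h2
    exact ⟨b, hb.symm⟩
  have h2 : ∀ b : Core F S₀, ∃ a : Core F S₀, e (Sum.inl a) = Sum.inl b := by
    intro b
    have h3 : (Sum.inl b : Pos (Core F S₀) Pc.el P') ∈
        range (e ∘ (Sum.inl : Core F S₀ → Pos (Core F S₀) Pc.el P)) := by
      rw [← hc]
      exact ⟨b, rfl⟩
    exact h3
  obtain ⟨α, β, hα, hβ⟩ := dec_split e h1 h2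
  have hB : ∀ a, e a ∈ range (Sum.inl : Core F S₀ → Pos (Core F S₀) Pc.el P') →
      a ∈ range (Sum.inl : Core F S₀ → Pos (Core F S₀) Pc.el P) := by
    rintro (a | p) h
    · exact ⟨a, rfl⟩
    · rw [hβ] at h
      obtain ⟨b, hb⟩ := h
      exact absurd hb (fun h => nomatch h)
  have hB' : ∀ a, e.symm a ∈ range (Sum.inl : Core F S₀ → Pos (Core F S₀) Pc.el P) →
      a ∈ range (Sum.inl : Core F S₀ → Pos (Core F S₀) Pc.el P') := by
    rintro a ⟨b, hb⟩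
    refine ⟨α b, ?_⟩
    rw [← hα, hb, Equiv.apply_symm_apply]
  have hcls : ∀ p q, p.1.1 = q.1.1 ↔ (β p).1.1 = (β q).1.1 := by
    intro p q
    rw [← hCON L V F S₀ I P p q, ← hCON L V F S₀ I' P' (β p) (β q), ← hβ, ← hβ]
    constructor
    · intro h
      exact dec_lift e he hB h
    · intro h
      have h3 := dec_lift e.symm he.symm hB' h
      rw [Equiv.symm_apply_apply, Equiv.symm_apply_apply] at h3
      exact h3
  obtain ⟨τ, ε, hτ⟩ := dec_tau β hcls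
  have hε : ∀ i (x : (P i).el), e (inc P i (Sum.inr x)) = inc P' (τ i) (Sum.inr (ε i x)) := by
    intro i x
    show e (Sum.inr ⟨(i, x.1), x.2⟩) = Sum.inr ⟨(τ i, (ε i x).1), (ε i x).2⟩
    rw [hβ, hτ]
  have hε' : ∀ i (x : (P' (τ i)).el),
      e.symm (inc P' (τ i) (Sum.inr x)) = inc P i (Sum.inr ((ε i).symm x)) := by
    intro i x
    rw [Equiv.symm_apply_eq, hε, Equiv.apply_symm_apply]
  have hα' : ∀ a, e.symm (Sum.inl a) = Sum.inl (α.symm a) := by
    intro a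
    rw [Equiv.symm_apply_eq, hα, Equiv.apply_symm_apply]
  refine ⟨τ, fun i j => ⟨?_, ?_⟩⟩
  · exact hDEA L V F S₀ I I' P P' e α i j (τ i) (τ j) (ε i) (ε j) he hα (hε i) (hε j)
  · exact hDEA L V F S₀ I' I P' P e.symm α.symm (τ i) (τ j) i j (ε i).symm (ε j).symm he.symm hα'
      (hε' i) (hε' j)

end GFC
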