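import Pool.Agent.GFC.St

/-!
# GFC [EMB]: subfamilies of pieces (helper21)
-/

set_option autoImplicit false

namespace GFC

open FirstOrder Set Pool.Agent.Helper6.Str Pool.Agent.Helper5.Multi
open CTQ (FG Vr ModG)

/-- Subfamilies of pieces. -/
theorem thm_EMB (hRES : St_RES) : St_EMB := by
  intro L _ V F S₀ I I' P P' j hj hinj n R v
  obtain rfl : P = fun i => P' (j i) := funext fun i => (hj i).symm
  have hpi := posMap_injective (F := Core F S₀) (el := Pc.el) (P := fun i => P' (j i)) (P' := P')
    j hj hinj
  have hinc : ∀ (i : I) (w : Core F S₀ ⊕ (P' (j i)).el),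
      posMap j hj (inc (fun i => P' (j i)) i w) = inc P' (j i) w := by
    rintro i (a | x)
    · rfl
    · rfl
  constructor
  · rintro (⟨y, hy, h⟩ | ⟨i, y, hy, h⟩)
    · refine Or.inl ⟨y, ?_, h⟩
      rw [hy]
      rfl
    · refine Or.inr ⟨j i, y, ?_, h⟩
      rw [hy]
      exact funext fun k => hinc i (y k)
  · rintro (⟨y, hy, h⟩ | ⟨i', y, hy, h⟩)
    · refine Or.inl ⟨y, funext fun k => hpi ?_, h⟩
      exact congrFun hy k
    · by_cases hk : ∃ k p, v k = Sum.inr p
      · obtain ⟨k, p, hp⟩ := hk
        have h1 : posMap j hj (v k) = inc P' i' (y k) := congrFun hy k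
        have h2 : i' = j p.1.1 := by
          rw [hp] at h1
          rcases hyk : y k with a | x
          · rw [hyk] at h1
            exact absurd h1 (fun h3 => nomatch h3)
          · rw [hyk] at h1
            have h3 : (Sum.inr ⟨(j p.1.1, p.1.2), _⟩ : Pos (Core F S₀) Pc.el P') =
              Sum.inr ⟨(i', x.1), x.2⟩ := h1
            exact (congrArg (fun q => q.1.1) (Sum.inr.inj h3)).symm
        subst h2
        refine Or.inr ⟨p.1.1, y, funext fun k' => hpi ?_, h⟩
        refine (congrFun hy k').trans ?_
        exact (hinc p.1.1 (y k')).symm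
      · have h1 : ∀ k, ∃ a, v k = Sum.inl a := by
          intro k
          rcases hv : v k with a | p
          · exact ⟨a, rfl⟩
          · exact absurd ⟨k, p, hv⟩ hk
        choose z hz using h1
        have h2 : v = Sum.inl ∘ z := funext hz
        have h3 : posMap j hj ∘ v = Sum.inl ∘ z := by
          rw [h2]
          rfl
        have h4 : (asmG P').RelMap R (posMap j hj ∘ v) := Or.inr ⟨i', y, hy, h⟩
        rw [h3] at h4
        rw [h2]
        exact ((hRES L V F S₀ I (fun i => P' (j i))).2.1 n R z).2
          (((hRES L V F S₀ I' P').2.1 n R z).1 h4)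

end GFC
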