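import Pool.Agent.GFC.St

/-!
# GFC, module FIN: the stages of the core
-/

set_option autoImplicit false

namespace GFC

open FirstOrder Set Pool.Agent.Helper6.Str Pool.Agent.Helper5.Multi
open CTQ (FG Vr ModG)

variable {L : FirstOrder.Language.{0, 0}} {V M : Type}

open Classical in
private theorem FIN_step (S : L.Structure M) (I : Finset V) (ψ : FG L V) (A : Set M)
    (hA : A.Finite) (hY : (ψ.fv \ (I : Set V)).Finite) :
    {a | ∃ u : V → M, (∀ l ∈ ψ.fv, l ∉ I → u l ∈ A) ∧ ψ.Sat S u ∧ (Wt S I ψ u).Finite ∧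
      ∃ i ∈ I, u i = a}.Finite := by
  have hAf : Finite A := hA.to_subtype
  have hYf : Finite (ψ.fv \ (I : Set V) : Set V) := hY.to_subtype
  have h1 : ∀ r : (ψ.fv \ (I : Set V) : Set V) → A,
      {a | ∃ u : V → M, (∀ l, u l.1 = (r l).1) ∧ ψ.Sat S u ∧ (Wt S I ψ u).Finite ∧
        ∃ i ∈ I, u i = a}.Finite := by
    intro r
    by_cases h : ∃ u0 : V → M, (∀ l, u0 l.1 = (r l).1) ∧ ψ.Sat S u0 ∧ (Wt S I ψ u0).Finite
    · obtain ⟨u0, h1, h2, h3⟩ := h
      refine Set.Finite.subset (s := ⋃ i ∈ (I : Set V), (fun w : V → M => w i) '' Wt S I ψ u0)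
        (I.finite_toSet.biUnion fun i _ => h3.image _) ?_
      rintro a ⟨u, g1, g2, g3, i, hi, rfl⟩
      refine mem_iUnion₂.2 ⟨i, hi, fun j => if j ∈ I then u j else u0 j, ⟨fun j hj => if_neg hj, ?_⟩,
        if_pos hi⟩
      refine (FG.sat_congr S ψ _ u fun j hj => ?_).2 g2
      by_cases hjI : j ∈ I
      · exact if_pos hjI
      · show (if j ∈ I then u j else u0 j) = u j
        rw [if_neg hjI]
        have e1 := h1 ⟨j, hj, hjI⟩
        have e2 := g1 ⟨j, hj, hjI⟩
        exact e1.trans e2.symm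
    · have h2 : {a | ∃ u : V → M, (∀ l, u l.1 = (r l).1) ∧ ψ.Sat S u ∧ (Wt S I ψ u).Finite ∧
          ∃ i ∈ I, u i = a} = ∅ := by
        refine eq_empty_iff_forall_notMem.2 ?_
        rintro a ⟨u, g1, g2, g3, -⟩
        exact h ⟨u, g1, g2, g3⟩
      rw [h2]
      exact finite_empty
  refine Set.Finite.subset (Set.finite_iUnion h1) ?_
  rintro a ⟨u, g1, g2, g3, i, hi, ha⟩
  exact mem_iUnion.2 ⟨fun l => ⟨u l.1, g1 l.1 l.2.1 l.2.2⟩, u, fun l => rfl, g2, g3, i, hi, ha⟩

/-- [FIN] -/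
theorem thm_FIN : St_FIN := by
  classical
  intro L V M F S hF
  have hmono1 : ∀ j, FJ F S j ⊆ FJ F S (j + 1) := fun j a ha => Or.inl ha
  have hmono : ∀ i j, i ≤ j → FJ F S i ⊆ FJ F S j := by
    intro i j hij
    induction j, hij using Nat.le_induction with
    | base => exact Subset.rfl
    | succ j _ ih => exact ih.trans (hmono1 j)
  refine ⟨?_, hmono, ?_⟩
  · intro j
    induction j with
    | zero => exact finite_empty
    | succ j ih =>
      refine ih.union ?_
      have h1 : ∀ k, {a | ∃ (m : ℕ) (I : Finset V) (ψ : FG L V), F k = .ge m I ψ ∧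
          ∃ u : V → M, (∀ l ∈ ψ.fv, l ∉ I → u l ∈ FJ F S j) ∧ ψ.Sat S u ∧ (Wt S I ψ u).Finite ∧
            ∃ i ∈ I, u i = a}.Finite := by
        intro k
        by_cases h : ∃ (m : ℕ) (I : Finset V) (ψ : FG L V), F k = .ge m I ψ
        · obtain ⟨m, I, ψ, hk⟩ := h
          have hY : (ψ.fv \ (I : Set V)).Finite := by
            have h2 := hF.fin k
            rw [hk] at h2
            exact h2
          refine Set.Finite.subset (FIN_step S I ψ (FJ F S j) ih hY) ?_
          rintro a ⟨m', I', ψ', hk', h3⟩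
          rw [hk] at hk'
          have h4 : m = m' ∧ I = I' ∧ ψ = ψ' := by
            injection hk' with e1 e2 e3
            exact ⟨e1, e2, e3⟩
          obtain ⟨rfl, rfl, rfl⟩ := h4
          exact h3
        · have h2 : {a | ∃ (m : ℕ) (I : Finset V) (ψ : FG L V), F k = .ge m I ψ ∧
              ∃ u : V → M, (∀ l ∈ ψ.fv, l ∉ I → u l ∈ FJ F S j) ∧ ψ.Sat S u ∧
                (Wt S I ψ u).Finite ∧ ∃ i ∈ I, u i = a} = ∅ := by
            refine eq_empty_iff_forall_notMem.2 ?_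
            rintro a ⟨m, I, ψ, hk, -⟩
            exact h ⟨m, I, ψ, hk⟩
          rw [h2]
          exact finite_empty
      refine Set.Finite.subset ((Set.finite_Iic j).biUnion fun k _ => h1 k) ?_
      rintro a ⟨k, hk, m, I, ψ, h2⟩
      exact mem_iUnion₂.2 ⟨k, hk, m, I, ψ, h2⟩
  · intro k m I ψ hk u hu hsat hfin i hi
    have hY : (ψ.fv \ (I : Set V)).Finite := by
      have h2 := hF.fin k
      rw [hk] at h2
      exact h2
    have h1 : ∀ l : V, ∃ j, l ∈ ψ.fv → l ∉ I → u l ∈ FJ F S j := by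
      intro l
      by_cases hl : l ∈ ψ.fv ∧ l ∉ I
      · obtain ⟨j, hj⟩ := hu l hl.1 hl.2
        exact ⟨j, fun _ _ => hj⟩
      · exact ⟨0, fun a b => absurd ⟨a, b⟩ hl⟩
    choose f hf using h1
    refine ⟨max k (hY.toFinset.sup f) + 1, Or.inr ⟨k, le_max_left _ _, m, I, ψ, hk, u, ?_, hsat,
      hfin, i, hi, rfl⟩⟩
    intro l hl hlI
    refine hmono _ _ ?_ (hf l hl hlI)
    exact le_trans (Finset.le_sup (f := f) (hY.mem_toFinset.2 ⟨hl, hlI⟩)) (le_max_right _ _)

end GFC
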