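import Pool.Agent.GFC.St

/-!
# GFC, module FJE: the stages of the core correspond
-/

set_option autoImplicit false

namespace GFC

open FirstOrder Set Pool.Agent.Helper6.Str Pool.Agent.Helper5.Multi
open CTQ (FG Vr ModG)

private theorem good_symm {L : FirstOrder.Language.{0, 0}} {V M N A : Type} {F : ℕ → FG L V}
    {S : L.Structure M} {S' : L.Structure N} {f : A → M} {g : A → N} (h : Good F S S' f g) :
    Good F S' S g f where
  injf := h.injg
  injg := h.injf
  rel := fun n R x => (h.rel n R x).symm
  agr := fun k v v' hv => (h.agr k v' v (fun l hl => by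
    obtain ⟨a, h1, h2⟩ := hv l hl
    exact ⟨a, h2, h1⟩)).symm
  wf := h.wg
  wg := h.wf

private theorem fj_sub {L : FirstOrder.Language.{0, 0}} {V M A : Type} {F : ℕ → FG L V}
    {S : L.Structure M} {f : A → M} (h : WCl F S (range f)) : ∀ j, FJ F S j ⊆ range f := by
  intro j
  induction j with
  | zero => exact fun a ha => absurd ha (notMem_empty a)
  | succ j ih =>
    rintro a (ha | ⟨k, _, m, I, ψ, hk, u, hu, hs, hf, i, hi, rfl⟩)
    · exact ih ha
    · exact h k m I ψ hk u (fun l hl hI => ih (hu l hl hI)) hs hf i hi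

private theorem fj_map (hNUM : St_NUM) {L : FirstOrder.Language.{0, 0}} {V M N A : Type}
    {F : ℕ → FG L V} {S : L.Structure M} {S' : L.Structure N} {f : A → M} {g : A → N}
    (hC : Cl F) (h : Good F S S' f g) : ∀ j a, f a ∈ FJ F S j → g a ∈ FJ F S' j := by
  classical
  intro j
  induction j with
  | zero => exact fun a ha => absurd ha (notMem_empty _)
  | succ j ih =>
    rintro a (ha | ⟨k, hkj, m, I, ψ, hk, u, hu, hs, hf, i, hi, hia⟩)
    · exact Or.inl (ih a ha)
    · let c : V → A := fun l => if h : ∃ c, u l = f c then h.choose else a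
      have hc0 : ∀ l, (∃ c, u l = f c) → u l = f (c l) := by
        intro l hl
        have h1 : c l = hl.choose := dif_pos hl
        rw [h1]
        exact hl.choose_spec
      have hcf : ∀ l ∈ ψ.fv, u l = f (c l) := by
        intro l hl
        by_cases hI : l ∈ I
        · obtain ⟨b, hb⟩ := h.wf k m I ψ hk u (fun l' hl' hI' => fj_sub h.wf j (hu l' hl' hI'))
            hs hf l hI
          exact hc0 l ⟨b, hb.symm⟩
        · obtain ⟨b, hb⟩ := fj_sub h.wf j (hu l hl hI)
          exact hc0 l ⟨b, hb.symm⟩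
      have hci : u i = f (c i) := hc0 i ⟨a, hia⟩
      obtain ⟨k', hk'⟩ := hC.sub k ψ (by rw [hk]; exact Sub.ge m I ψ)
      have hs' : ψ.Sat S' (fun l => g (c l)) := by
        have h1 := h.agr k' u (fun l => g (c l)) (fun l hl => ⟨c l, hcf l (by
          rw [hk'] at hl
          exact hl), rfl⟩)
        rw [hk'] at h1
        exact h1.1 hs
      have hn := hNUM L V M N A F S S' f g hC h k m I ψ hk u (fun l => g (c l))
        (fun l hl _ => ⟨c l, hcf l hl, rfl⟩)
      refine Or.inr ⟨k, hkj, m, I, ψ, hk, fun l => g (c l), ?_, hs', ?_, i, hi, ?_⟩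
      · intro l hl hI
        refine ih (c l) ?_
        rw [← hcf l hl]
        exact hu l hl hI
      · rw [← encard_ne_top_iff, ← hn]
        exact encard_ne_top_iff.2 hf
      · have h2 : c i = a := h.injf (by rw [← hci, hia])
        show g (c i) = g a
        rw [h2]

theorem thm_FJE (hNUM : St_NUM) : St_FJE := by
  intro L V M N A F S S' f g hC h
  refine ⟨fj_sub h.wf, fj_sub h.wg, fun j a => ⟨fj_map hNUM hC h j a,
    fj_map hNUM hC (good_symm h) j a⟩, fun hcore => ?_⟩
  apply Subset.antisymm
  · rintro b ⟨j, hj⟩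
    exact fj_sub h.wg j hj
  · rintro b ⟨a, rfl⟩
    have h1 : f a ∈ Core F S := by
      rw [hcore]
      exact ⟨a, rfl⟩
    obtain ⟨j, hj⟩ := h1
    exact ⟨j, fj_map hNUM hC h j a hj⟩

end GFC
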