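import Pool.Agent.GFC.St

/-!
# GFC, the frame: the dichotomy for the structures with a given core (module FRG)
-/

set_option autoImplicit false

namespace GFC

open FirstOrder Set Pool.Agent.Helper6.Str Pool.Agent.Helper5.Multi
open CTQ (FG Vr ModG)

section

variable {L : FirstOrder.Language.{0, 0}} {V : Type} {F : ℕ → FG L V} {S₀ : L.Structure ℕ}

private theorem PI_refl (p : Pc F S₀) : PI p p := by
  refine ⟨Equiv.refl _, ?_⟩
  have h : sm (F := F) (S₀ := S₀) (Equiv.refl p.el) = Equiv.refl _ := Equiv.sumCongr_refl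
  rw [h]
  exact Pool.Agent.Helper6.Str.RelIso.refl _

private theorem PI_symm {p q : Pc F S₀} (h : PI p q) : PI q p := by
  obtain ⟨e, he⟩ := h
  exact ⟨e.symm, he.symm⟩

private theorem PI_trans {p q r : Pc F S₀} (h : PI p q) (h' : PI q r) : PI p r := by
  obtain ⟨e, he⟩ := h
  obtain ⟨e', he'⟩ := h'
  refine ⟨e.trans e', ?_⟩
  have h1 : sm (F := F) (S₀ := S₀) (e.trans e') = (sm e).trans (sm e') := by
    ext x
    rcases x with x | x <;> rfl
  rw [h1]
  exact he.trans he'

/-- Isomorphism of pieces as a setoid. -/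
def pcSetoid (F : ℕ → FG L V) (S₀ : L.Structure ℕ) : Setoid (Pc F S₀) where
  r := PI
  iseqv := ⟨PI_refl, PI_symm, PI_trans⟩

end

/-- The dichotomy for the structures with a given core. -/
theorem thm_FRG (hGIS : St_GIS) (hCGR : St_CGR) (hEMB : St_EMB) (hDEC : St_DEC) (hREP : St_REP)
    (hMON : St_MON) : St_FRG := by
  intro L _ V F S₀ hF
  let fr : Frame (KG F S₀) :=
    { Piece := Pc F S₀
      r := pcSetoid F S₀
      F := Core F S₀
      ctF := inferInstance
      el := Pc.el
      asm := fun P => asmG P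
      Md := fun P => MdG P
      md_congr := fun {I I'} _ _ {P P'} τ h hM => by
        obtain ⟨e, he, hl⟩ := hCGR L V F S₀ I I' P P' τ h
        refine ⟨?_, ?_⟩
        · have := hM.1
          exact Infinite.of_injective e e.injective
        · have h1 := hGIS L V ℕ _ _ _ F S₀ (asmG P) (asmG P') _ _ e he hM.2
          have h2 : e ∘ (Sum.inl : Core F S₀ → Pos (Core F S₀) Pc.el P) = Sum.inl := funext hl
          rwa [h2] at h1
      congr := fun {I I'} _ _ {P P'} τ h _ => by
        obtain ⟨e, he, -⟩ := hCGR L V F S₀ I I' P P' τ h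
        exact ⟨e, he⟩
      inf := fun hM => hM.1
      emb := fun {I I'} _ _ {P P'} j hj hinj _ n R v => hEMB L V F S₀ I I' P P' j hj hinj n R v
      mem := fun {I} _ {P} hM S hS => by
        obtain ⟨e, he⟩ := hS
        exact ⟨_, hGIS L V ℕ _ _ _ F S₀ (asmG P) S _ _ e he hM.2⟩
      rep := fun S hS => hREP L V F S₀ S hS
      mono := fun {I I'} _ _ {P P'} j hinj hj hM => hMON L V F S₀ I I' P P' j hF hinj hj hM
      dec := fun {I I'} _ _ {P P'} hM hM' hI => hDEC L V F S₀ I I' P P' hF hM hM' hI }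
  exact fr.dichotomy

end GFC
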