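import Pool.Agent.GFC.St

/-!
# GFC, module GFA: Vaught's conjecture for the guarded fragment with counting (assembly)
-/

set_option autoImplicit false

namespace GFC

open FirstOrder Set Pool.Agent.Helper6.Str Pool.Agent.Helper5.Multi
open CTQ (FG Vr ModG)

theorem thm_GFA (hCLF : St_CLF) (hFRG : St_FRG) (hCRE : St_CRE) : St_GFA := by
  intro L _ _ V φ hfv hgd
  obtain ⟨F, rfl, hCl⟩ := hCLF L V φ hfv hgd
  by_cases hP : PerfK (ModG (F 0))
  · exact Or.inr hP
  left
  by_cases hne : (ModG (F 0)).Nonempty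
  · obtain ⟨σ, hσ, hall⟩ := hCRE L V F hCl hfv hP hne
    have hsub : ∀ m, KG F (σ m) ⊆ ModG (F 0) := by
      rintro m S ⟨g, hg⟩ v
      refine (hg.agr 0 (fun _ => 0) v fun l hl => ?_).1 (hσ m _)
      rw [hfv] at hl
      exact absurd hl (notMem_empty l)
    have hC : ∀ m, CtblK (KG F (σ m)) := by
      intro m
      rcases hFRG L V F (σ m) hCl with h | ⟨f, h1, h2⟩
      · exact h
      · exact absurd ⟨f, fun x => hsub m (h1 x), h2⟩ hP
    choose g hg using hC
    refine ⟨fun n => g (Nat.unpair n).1 (Nat.unpair n).2, fun S hS => ?_⟩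
    obtain ⟨m, hm⟩ := hall S hS
    obtain ⟨n, hn⟩ := hg m S hm
    refine ⟨Nat.pair m n, ?_⟩
    simp only [Nat.unpair_pair]
    exact hn
  · refine ⟨fun _ => (⟨fun f => isEmptyElim f, fun _ _ => False⟩ : L.Structure ℕ),
      fun S hS => absurd ⟨S, hS⟩ hne⟩

end GFC
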