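import Pool.Agent.GFC.St

/-!
# GFC, module GIS: good identifications and isomorphisms
-/

set_option autoImplicit false

namespace GFC

open FirstOrder Set Pool.Agent.Helper6.Str Pool.Agent.Helper5.Multi
open CTQ (FG Vr ModG)

theorem thm_GIS : St_GIS := by
  intro L V M N N' A F S T T' f g e he hG
  have hcomp : ∀ v' : V → N', e ∘ (e.symm ∘ v') = v' := by
    intro v'
    funext l
    exact e.apply_symm_apply (v' l)
  have hcomp2 : ∀ v : V → N, e.symm ∘ (e ∘ v) = v := by
    intro v
    funext l
    exact e.symm_apply_apply (v l)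
  have hsat : ∀ (φ : FG L V) (v' : V → N'), φ.Sat T (e.symm ∘ v') ↔ φ.Sat T' v' := by
    intro φ v'
    have h := FG.sat_inv e he φ (e.symm ∘ v')
    rw [hcomp v'] at h
    exact h
  refine ⟨hG.injf, e.injective.comp hG.injg, fun n R x => ?_, fun k v v' h => ?_, hG.wf, ?_⟩
  · rw [hG.rel n R x]
    exact he n R (g ∘ x)
  · rw [← hsat (F k) v']
    refine hG.agr k v (e.symm ∘ v') fun l hl => ?_
    obtain ⟨a, h1, h2⟩ := h l hl
    refine ⟨a, h1, ?_⟩
    show e.symm (v' l) = g a
    rw [h2]
    exact e.symm_apply_apply (g a)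
  · intro k m I ψ hk u hu hs hfin i hi
    have hfin' : (Wt T I ψ (e.symm ∘ u)).Finite := by
      refine Set.Finite.of_injOn (f := fun w => e ∘ w) (t := Wt T' I ψ u) ?_ ?_ hfin
      · intro w hw
        refine ⟨fun j hj => ?_, ?_⟩
        · show e (w j) = u j
          rw [hw.1 j hj]
          exact e.apply_symm_apply (u j)
        · rw [← hsat ψ (e ∘ w), hcomp2 w]
          exact hw.2
      · intro w _ w' _ h
        have h' : e ∘ w = e ∘ w' := h
        rw [← hcomp2 w, h', hcomp2 w']
    have h := hG.wg k m I ψ hk (e.symm ∘ u) (fun l hl hlI => ?_) ((hsat ψ u).2 hs) hfin' i hi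
    · obtain ⟨a, ha⟩ := h
      refine ⟨a, ?_⟩
      show e (g a) = u i
      rw [ha]
      exact e.apply_symm_apply (u i)
    · obtain ⟨a, ha⟩ := hu l hl hlI
      refine ⟨a, ?_⟩
      show g a = e.symm (u l)
      rw [← ha]
      exact (e.symm_apply_apply (g a)).symm

end GFC
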