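import Pool.Agent.GFC.St

/-!
# GFC, module GLU: gluing (helper16)
-/

set_option autoImplicit false
set_option linter.unusedVariables false

namespace GFC

open FirstOrder Set Pool.Agent.Helper6.Str Pool.Agent.Helper5.Multi
open CTQ (FG Vr ModG)

/-- an assignment in a chart -/
private theorem glu_asg {L : FirstOrder.Language.{0, 0}} {V M N A : Type} (hM : Nonempty M)
    (Y : Set V) (v : V → N) (g : A → N) (f : A → M) (h : ∀ l ∈ Y, ∃ a, v l = g a) :
    ∃ (a : ∀ l ∈ Y, A) (w : V → M), (∀ l (hl : l ∈ Y), v l = g (a l hl)) ∧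
      ∀ l (hl : l ∈ Y), w l = f (a l hl) := by
  classical
  choose a ha using h
  refine ⟨a, fun l => if hl : l ∈ Y then f (a l hl) else Classical.choice hM, ha, ?_⟩
  intro l hl
  exact dif_pos hl

/-- [GLU] gluing -/
theorem thm_GLU (hTRG : St_TRG) (hWIB : St_WIB) : St_GLU := by
  classical
  intro L V M₀ A N C F S₀ f₀ T g ch c0 hF hM hG
  have hT : ∀ k, Tru ch (F k) := hTRG L V M₀ A N C F S₀ f₀ T g ch c0 hF hM hG
  refine ⟨(ch c0).good.injf, ?_, ?_, ?_, (ch c0).good.wf, ?_⟩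
  · intro a a' h
    have h1 : (ch c0).lam ((ch c0).b a) = (ch c0).lam ((ch c0).b a') := by
      rw [(ch c0).lamb, (ch c0).lamb, h]
    have h2 : (ch c0).b a = (ch c0).b a' := (ch c0).lami h1
    have h3 : (ch c0).f a = (ch c0).f a' := by
      rw [← (ch c0).κb, ← (ch c0).κb, h2]
    exact (ch c0).good.injg h3
  · intro n R x
    have h1 := (ch c0).good.rel n R x
    have h2 := (ch c0).rel n R ((ch c0).b ∘ x)
    have e1 : (ch c0).κ ∘ ((ch c0).b ∘ x) = (ch c0).f ∘ x := funext fun i => (ch c0).κb (x i)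
    have e2 : (ch c0).lam ∘ ((ch c0).b ∘ x) = g ∘ x := funext fun i => (ch c0).lamb (x i)
    rw [e1, e2] at h2
    exact h1.trans h2
  · intro k v v' h
    choose a ha using h
    let w : V → (ch c0).M := fun l =>
      if hl : l ∈ (F k).fv then (ch c0).f (a l hl) else Classical.choice (ch c0).ne
    have hw : ∀ l (hl : l ∈ (F k).fv), w l = (ch c0).f (a l hl) := fun l hl => dif_pos hl
    have h1 := (ch c0).good.agr k v w fun l hl => ⟨a l hl, (ha l hl).1, hw l hl⟩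
    have h2 := hT k c0 v' w fun l hl => ⟨(ch c0).b (a l hl), by
      rw [(ch c0).lamb, (ha l hl).2], by rw [(ch c0).κb, hw l hl]⟩
    exact h1.trans h2.symm
  · intro k m I ψ hk u hu hs hfin i hi
    obtain ⟨k', hk'⟩ := hF.sub k ψ (by rw [hk]; exact Sub.ge m I ψ)
    have hTψ : Tru ch ψ := by rw [← hk']; exact hT k'
    have hu' : ∀ l ∈ {l : V | l ∈ ψ.fv ∧ l ∉ I}, ∃ a, u l = g a := by
      rintro l ⟨h1, h2⟩
      obtain ⟨a, ha⟩ := hu l h1 h2
      exact ⟨a, ha.symm⟩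
    obtain ⟨a, w, ha, hw⟩ := glu_asg (L := L) (ch c0).ne {l : V | l ∈ ψ.fv ∧ l ∉ I} u g
      (ch c0).f hu'
    have h := hWIB L V M₀ A N C F S₀ f₀ T g ch c0 hF hM hG k m I ψ hk hTψ c0 u w
      (fun l h1 h2 => ⟨(ch c0).b (a l ⟨h1, h2⟩), by
        rw [(ch c0).lamb, ha l ⟨h1, h2⟩], by rw [(ch c0).κb, hw l ⟨h1, h2⟩]⟩) hu
    exact h.2 hfin u ⟨fun j _ => rfl, hs⟩ i hi

end GFC
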