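import Pool.Agent.GFC.St

/-!
# GFC, module IVE: invariance of the approximations
-/

set_option autoImplicit false

namespace GFC

open FirstOrder Set Pool.Agent.Helper6.Str Pool.Agent.Helper5.Multi
open CTQ (FG Vr ModG)

variable {L : FirstOrder.Language.{0, 0}} {V M N : Type}

private theorem IVE_FJ {F : ℕ → FG L V} {S : L.Structure M} {S' : L.Structure N} {e : M ≃ N}
    (h : RelIso S S' e) : ∀ (j : ℕ) (a : M), a ∈ FJ F S j → e a ∈ FJ F S' j := by
  intro j
  induction j with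
  | zero => exact fun a ha => ha.elim
  | succ j ih =>
    intro a ha
    rcases ha with ha | ⟨k, hk, m, I, ψ, hF, u, hu, hs, hfin, i, hi, hia⟩
    · exact Or.inl (ih a ha)
    · refine Or.inr ⟨k, hk, m, I, ψ, hF, e ∘ u, fun l hl hlI => ih _ (hu l hl hlI),
        (FG.sat_inv e h ψ u).1 hs, ?_, i, hi, congrArg e hia⟩
      refine (hfin.image (fun w : V → M => (e ∘ w : V → N))).subset ?_
      rintro w ⟨h1, h2⟩
      have h3 : (e ∘ (e.symm ∘ w) : V → N) = w := by
        funext l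
        simp
      refine ⟨e.symm ∘ w, ⟨fun l hl => ?_, ?_⟩, h3⟩
      · show e.symm (w l) = u l
        rw [h1 l hl]
        simp
      · rw [FG.sat_inv e h ψ, h3]
        exact h2

private theorem IVE_lit {F : ℕ → FG L V} {n : ℕ} {S : L.Structure M} {S' : L.Structure N}
    {e : M ≃ N} (h : RelIso S S' e) (x : Fin n → M) (t : ((k : ℕ) × ((F k).fv → Fin n)) ⊕
      (((n' : ℕ) × (L.Relations n' × (Fin n' → Fin n))) ⊕ (ℕ × Fin n)))
    (ht : LitT F S x t) : LitT F S' (e ∘ x) t := by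
  match t, ht with
  | .inl ⟨k, p⟩, ⟨v, h1, h2⟩ =>
    exact ⟨e ∘ v, fun l => congrArg e (h1 l), (FG.sat_inv e h (F k) v).1 h2⟩
  | .inr (.inl ⟨n', (R, q)⟩), h1 => exact (h n' R (x ∘ q)).1 h1
  | .inr (.inr (i, a)), h1 => exact IVE_FJ h i (x a) h1

private theorem IVE_lit' {F : ℕ → FG L V} {n : ℕ} {S : L.Structure M} {S' : L.Structure N}
    {e : M ≃ N} (h : RelIso S S' e) (x : Fin n → M) (t : ((k : ℕ) × ((F k).fv → Fin n)) ⊕
      (((n' : ℕ) × (L.Relations n' × (Fin n' → Fin n))) ⊕ (ℕ × Fin n))) :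
    LitT F S' (e ∘ x) t ↔ LitT F S x t := by
  constructor
  · intro ht
    have h1 := IVE_lit h.symm (e ∘ x) t ht
    have h2 : (e.symm ∘ (e ∘ x) : Fin n → M) = x := by
      funext i
      simp
    rwa [h2] at h1
  · exact IVE_lit h x t

theorem thm_IVE : St_IVE := by
  intro L V F S S' e h j n s hex
  obtain ⟨x, h1, h2, h3⟩ := hex
  refine ⟨e ∘ x, e.injective.comp h1, ?_, fun t ht => ?_⟩
  · ext a
    constructor
    · rintro ⟨i, rfl⟩
      refine IVE_FJ h j (x i) ?_
      rw [← h2]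
      exact ⟨i, rfl⟩
    · intro ha
      have h4 := IVE_FJ h.symm j a ha
      rw [← h2] at h4
      obtain ⟨i, hi⟩ := h4
      exact ⟨i, by rw [Function.comp_apply, hi]; simp⟩
  · exact (IVE_lit' h x t.1).trans (h3 t ht)

end GFC
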