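import Pool.Agent.GFC.St

/-!
# GFC, module KOE: Koenig's lemma for the stages of the core (helper33)
-/

set_option autoImplicit false

namespace GFC

open FirstOrder Set Pool.Agent.Helper6.Str Pool.Agent.Helper5.Multi
open CTQ (FG Vr ModG)

/-- finitely many cases along an ultrafilter -/
private theorem KOE_fin {T : Set ℕ} (hT : T.Finite) (U : Ultrafilter ℕ)
    (A : ℕ → ℕ → Prop) (h : ∀ᶠ k in (U : Filter ℕ), ∃ y ∈ T, A k y) :
    ∃ y ∈ T, ∀ᶠ k in (U : Filter ℕ), A k y := by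
  have h1 : (⋃ y ∈ T, {k | A k y}) ∈ U := by
    have h2 : {k | ∃ y ∈ T, A k y} ∈ U := h
    have e : (⋃ y ∈ T, {k | A k y}) = {k | ∃ y ∈ T, A k y} := by
      ext k
      simp only [mem_iUnion, mem_ofPred_eq, exists_prop]
    rw [e]
    exact h2
  obtain ⟨y, hy, h3⟩ := (Ultrafilter.finite_biUnion_mem_iff hT).1 h1
  exact ⟨y, hy, h3⟩

theorem thm_KOE (hFIN : St_FIN) : St_KOE := by
  intro L V F S S' hcl he
  choose e he using he
  obtain ⟨hf, hmono, hW⟩ := hFIN L V ℕ F S hcl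
  obtain ⟨hf', hmono', hW'⟩ := hFIN L V ℕ F S' hcl
  let U : Ultrafilter ℕ := Filter.hyperfilter ℕ
  have hU : (U : Filter ℕ) ≤ Filter.atTop := Nat.hyperfilter_le_atTop
  let A : ℕ → ℕ → ℕ → Prop := fun k x y => ∃ h : x ∈ FJ F S k, (e k ⟨x, h⟩).1 = y
  have hex : ∀ x ∈ Core F S, ∃ y ∈ Core F S', ∀ᶠ k in (U : Filter ℕ), A k x y := by
    rintro x ⟨i, hx⟩
    have h1 : ∀ᶠ k in (U : Filter ℕ), ∃ y ∈ FJ F S' i, A k x y := by
      refine Filter.Eventually.filter_mono hU ((Filter.eventually_ge_atTop i).mono fun k hk => ?_)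
      exact ⟨(e k ⟨x, hmono i k hk hx⟩).1, ((he k).mem i ⟨x, hmono i k hk hx⟩).2 hx,
        hmono i k hk hx, rfl⟩
    obtain ⟨y, hy, h2⟩ := KOE_fin (hf' i) U (fun k y => A k x y) h1
    exact ⟨y, ⟨i, hy⟩, h2⟩
  have hey : ∀ y ∈ Core F S', ∃ x ∈ Core F S, ∀ᶠ k in (U : Filter ℕ), A k x y := by
    rintro y ⟨i, hy⟩
    have h1 : ∀ᶠ k in (U : Filter ℕ), ∃ x ∈ FJ F S i, A k x y := by
      refine Filter.Eventually.filter_mono hU ((Filter.eventually_ge_atTop i).mono fun k hk => ?_)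
      have hy' : y ∈ FJ F S' k := hmono' i k hk hy
      have h2 : e k ((e k).symm ⟨y, hy'⟩) = ⟨y, hy'⟩ := Equiv.apply_symm_apply _ _
      have h3 : (e k ((e k).symm ⟨y, hy'⟩)).1 ∈ FJ F S' i := by
        rw [h2]
        exact hy
      exact ⟨((e k).symm ⟨y, hy'⟩).1, ((he k).mem i _).1 h3, ((e k).symm ⟨y, hy'⟩).2,
        congrArg Subtype.val h2⟩
    obtain ⟨x, hx, h2⟩ := KOE_fin (hf i) U (fun k x => A k x y) h1
    exact ⟨x, ⟨i, hx⟩, h2⟩
  choose E hE1 hE2 using hex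
  let g : Core F S → ℕ := fun x => E x.1 x.2
  have hg : ∀ x : Core F S, ∀ᶠ k in (U : Filter ℕ), A k x.1 (g x) := fun x => hE2 x.1 x.2
  have hrf : range (Subtype.val : Core F S → ℕ) = Core F S := Subtype.range_val
  have hrg : range g = Core F S' := by
    apply Subset.antisymm
    · rintro _ ⟨x, rfl⟩
      exact hE1 x.1 x.2
    · intro y hy
      obtain ⟨x, hx, h1⟩ := hey y hy
      obtain ⟨k, ⟨h2, h3⟩, h4, h5⟩ := (h1.and (hg ⟨x, hx⟩)).exists
      exact ⟨⟨x, hx⟩, h5.symm.trans h3⟩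
  refine ⟨g, ⟨Subtype.val_injective, ?_, ?_, ?_, ?_, ?_⟩⟩
  · intro x x' h
    obtain ⟨k, ⟨h2, h3⟩, h4, h5⟩ := ((hg x).and (hg x')).exists
    have h6 : e k ⟨x.1, h2⟩ = e k ⟨x'.1, h4⟩ := Subtype.ext (h3.trans (h.trans h5.symm))
    have h7 := (e k).injective h6
    exact Subtype.ext (Subtype.mk.inj h7)
  · intro n R x
    have h1 : ∀ᶠ k in (U : Filter ℕ), ∀ i, A k (x i).1 (g (x i)) :=
      Filter.eventually_all.2 fun i => hg (x i)
    obtain ⟨k, hk⟩ := h1.exists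
    choose hm he' using hk
    have h2 := (he k).rel n R fun i => ⟨(x i).1, hm i⟩
    have h3 : (fun i => (e k ⟨(x i).1, hm i⟩).1) = g ∘ x := funext he'
    rw [h3] at h2
    exact h2
  · intro k v v' h
    have h1 : ∀ᶠ j in (U : Filter ℕ), ∀ l ∈ (F k).fv, A j (v l) (v' l) := by
      refine (Filter.eventually_all_finite (hcl.fin k)).2 fun l hl => ?_
      obtain ⟨a, h2, h3⟩ := h l hl
      rw [h2, h3]
      exact hg a
    obtain ⟨j, hj⟩ := h1.exists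
    refine (he j).agr k v v' fun l hl => ?_
    obtain ⟨h2, h3⟩ := hj l hl
    exact ⟨⟨v l, h2⟩, rfl, h3.symm⟩
  · rw [hrf]
    exact hW
  · rw [hrg]
    exact hW'

end GFC
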