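import Pool.Agent.GFC.St

/-!
# GFC, module MEX: measurability of the approximations
-/

set_option autoImplicit false

namespace GFC

open FirstOrder Set Pool.Agent.Helper6.Str Pool.Agent.Helper5.Multi
open CTQ (FG Vr ModG)

private theorem mex_wt_encard {L : FirstOrder.Language.{0, 0}} {V M : Type} (S : L.Structure M)
    (I : Finset V) (ψ : FG L V) (u u' : V → M) (h : ∀ i ∈ ψ.fv, i ∉ I → u i = u' i) :
    (Wt S I ψ u).encard = (Wt S I ψ u').encard := by
  refine ENat.eq_of_forall_natCast_le_iff fun m => ?_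
  have h1 := FG.sat_congr S (FG.ge m I ψ) u u' (fun i hi => h i hi.1 hi.2)
  rw [sat_ge_iff, sat_ge_iff] at h1
  exact h1

private noncomputable def mexExt {V : Type} (Z : Set V) (z : Z → ℕ) : V → ℕ :=
  open Classical in fun i => if h : i ∈ Z then z ⟨i, h⟩ else 0

private theorem mexExt_eq {V : Type} (Z : Set V) (u : V → ℕ) {i : V} (hi : i ∈ Z) :
    mexExt Z (fun l => u l.1) i = u i := by
  unfold mexExt
  rw [dif_pos hi]

variable {L : FirstOrder.Language.{0, 0}} [∀ n, IsEmpty (L.Functions n)]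
  [∀ n, Countable (L.Relations n)] {V : Type}

private theorem mex_fj (hSMB : St_SMB) {F : ℕ → FG L V} (hF : Cl F) : ∀ (j a : ℕ),
    MeasurableSet {c : Code L | a ∈ FJ F (toStr c) j} := by
  intro j
  induction j with
  | zero =>
    intro a
    exact MeasurableSet.const _
  | succ j ih =>
    intro a
    have h : {c : Code L | a ∈ FJ F (toStr c) (j + 1)} = {c : Code L | a ∈ FJ F (toStr c) j} ∪
        ⋃ k ∈ {k : ℕ | k ≤ j}, {c : Code L | ∃ (m : ℕ) (I : Finset V) (ψ : FG L V),
          F k = .ge m I ψ ∧ ∃ u : V → ℕ, (∀ l ∈ ψ.fv, l ∉ I → u l ∈ FJ F (toStr c) j) ∧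
          ψ.Sat (toStr c) u ∧ (Wt (toStr c) I ψ u).Finite ∧ ∃ i ∈ I, u i = a} := by
      apply Set.ext
      intro c
      constructor
      · rintro (h1 | ⟨k, hk, h1⟩)
        · exact Or.inl h1
        · refine Or.inr ?_
          rw [mem_iUnion₂]
          exact ⟨k, hk, h1⟩
      · rintro (h1 | h1)
        · exact Or.inl h1
        · rw [mem_iUnion₂] at h1
          obtain ⟨k, hk, h2⟩ := h1
          exact Or.inr ⟨k, hk, h2⟩
    rw [h]
    refine (ih a).union (MeasurableSet.biUnion (Set.to_countable _) fun k _ => ?_)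
    by_cases hk : ∃ (m : ℕ) (I : Finset V) (ψ : FG L V), F k = .ge m I ψ
    · obtain ⟨m, I, ψ, hk⟩ := hk
      obtain ⟨k', hk'⟩ := hF.sub k ψ (by rw [hk]; exact Sub.ge m I ψ)
      have hfin : ψ.fv.Finite := by rw [← hk']; exact hF.fin k'
      have hZ : (ψ.fv ∪ (I : Set V)).Finite := hfin.union I.finite_toSet
      have : Finite ↥(ψ.fv ∪ (I : Set V)) := hZ.to_subtype
      have h2 : {c : Code L | ∃ (m : ℕ) (I : Finset V) (ψ : FG L V),
          F k = .ge m I ψ ∧ ∃ u : V → ℕ, (∀ l ∈ ψ.fv, l ∉ I → u l ∈ FJ F (toStr c) j) ∧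
          ψ.Sat (toStr c) u ∧ (Wt (toStr c) I ψ u).Finite ∧ ∃ i ∈ I, u i = a} =
          ⋃ z : ↥(ψ.fv ∪ (I : Set V)) → ℕ,
            ((⋂ l ∈ {l | l ∈ ψ.fv ∧ l ∉ I}, {c : Code L |
              mexExt (ψ.fv ∪ (I : Set V)) z l ∈ FJ F (toStr c) j}) ∩
            {c : Code L | ψ.Sat (toStr c) (mexExt (ψ.fv ∪ (I : Set V)) z)}) ∩
            ({c : Code L | (Wt (toStr c) I ψ (mexExt (ψ.fv ∪ (I : Set V)) z)).Finite} ∩
            {_c : Code L | ∃ i ∈ I, mexExt (ψ.fv ∪ (I : Set V)) z i = a}) := by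
        apply Set.ext
        intro c
        constructor
        · rintro ⟨m', I', ψ', h3, u, hu1, hu2, hu3, i, hi, hia⟩
          rw [hk] at h3
          obtain ⟨-, rfl, rfl⟩ := FG.ge.inj h3
          rw [mem_iUnion]
          have key : ∀ l ∈ ψ.fv ∪ (I : Set V),
              mexExt (ψ.fv ∪ (I : Set V)) (fun l => u l.1) l = u l := fun l hl => mexExt_eq _ u hl
          refine ⟨fun l => u l.1, ⟨?_, ?_⟩, ?_, i, hi, ?_⟩
          · rw [mem_iInter₂]
            intro l hl
            show mexExt (ψ.fv ∪ (I : Set V)) (fun l => u l.1) l ∈ FJ F (toStr c) j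
            rw [key l (Or.inl hl.1)]
            exact hu1 l hl.1 hl.2
          · exact (FG.sat_congr (toStr c) ψ _ _ fun l hl => key l (Or.inl hl)).mpr hu2
          · show (Wt _ I ψ _).Finite
            rw [← Set.encard_lt_top_iff] at hu3 ⊢
            rwa [mex_wt_encard (toStr c) I ψ _ u fun l hl _ => key l (Or.inl hl)]
          · rw [key i (Or.inr hi)]
            exact hia
        · intro h3
          rw [mem_iUnion] at h3
          obtain ⟨z, ⟨h4, h5⟩, h6, i, hi, hia⟩ := h3
          rw [mem_iInter₂] at h4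
          exact ⟨m, I, ψ, hk, _, fun l hl hlI => h4 l ⟨hl, hlI⟩, h5, h6, i, hi, hia⟩
      rw [h2]
      refine MeasurableSet.iUnion fun z => ?_
      refine ((MeasurableSet.biInter ?_ fun l _ => ih _).inter (hSMB L V ψ _).1).inter
        (((hSMB L V ψ _).2 I).inter (MeasurableSet.const _))
      exact (hfin.subset fun l hl => hl.1).countable
    · have h2 : {c : Code L | ∃ (m : ℕ) (I : Finset V) (ψ : FG L V),
          F k = .ge m I ψ ∧ ∃ u : V → ℕ, (∀ l ∈ ψ.fv, l ∉ I → u l ∈ FJ F (toStr c) j) ∧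
          ψ.Sat (toStr c) u ∧ (Wt (toStr c) I ψ u).Finite ∧ ∃ i ∈ I, u i = a} = ∅ := by
        rw [Set.eq_empty_iff_forall_notMem]
        rintro c ⟨m, I, ψ, h3, -⟩
        exact hk ⟨m, I, ψ, h3⟩
      rw [h2]
      exact MeasurableSet.empty

private theorem mex_litT (hSMB : St_SMB) {F : ℕ → FG L V} (hF : Cl F) {N : ℕ} (x : Fin N → ℕ)
    (t : ((k : ℕ) × ((F k).fv → Fin N)) ⊕ (((n : ℕ) × (L.Relations n × (Fin n → Fin N))) ⊕
    (ℕ × Fin N))) : MeasurableSet {c : Code L | LitT F (toStr c) x t} := by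
  rcases t with ⟨k, p⟩ | ⟨n, R, q⟩ | ⟨i, a⟩
  · have h : {c : Code L | LitT F (toStr c) x (.inl ⟨k, p⟩)} =
        {c : Code L | (F k).Sat (toStr c) (mexExt (F k).fv fun l => x (p l))} := by
      apply Set.ext
      intro c
      have key : ∀ l (hl : l ∈ (F k).fv), mexExt (F k).fv (fun l => x (p l)) l = x (p ⟨l, hl⟩) := by
        intro l hl
        unfold mexExt
        rw [dif_pos hl]
      constructor
      · rintro ⟨v, h1, h2⟩
        refine (FG.sat_congr (toStr c) (F k) _ _ fun l hl => ?_).mpr h2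
        rw [key l hl]
        exact (h1 ⟨l, hl⟩).symm
      · intro h2
        exact ⟨_, fun l => key l.1 l.2, h2⟩
    rw [h]
    exact (hSMB L V (F k) _).1
  · exact measurableSet_relMap R _
  · exact mex_fj hSMB hF i (x a)

theorem thm_MEX (hSMB : St_SMB) : St_MEX := by
  intro L _ _ V F hF j N s
  have h : {c : Code L | Ex F (toStr c) j N s} = ⋃ x : Fin N → ℕ,
      ({_c : Code L | Function.Injective x} ∩
        ⋂ a : ℕ, {c : Code L | a ∈ range x ↔ a ∈ FJ F (toStr c) j}) ∩
        ⋂ t ∈ s, {c : Code L | LitS F (toStr c) x t} := by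
    apply Set.ext
    intro c
    constructor
    · rintro ⟨x, h1, h2, h3⟩
      rw [mem_iUnion]
      refine ⟨x, ⟨h1, ?_⟩, ?_⟩
      · rw [mem_iInter]
        intro a
        show a ∈ range x ↔ _
        rw [h2]
      · rw [mem_iInter₂]
        exact h3
    · intro h3
      rw [mem_iUnion] at h3
      obtain ⟨x, ⟨h4, h5⟩, h6⟩ := h3
      rw [mem_iInter] at h5
      rw [mem_iInter₂] at h6
      exact ⟨x, h4, Set.ext h5, h6⟩
  rw [h]
  refine MeasurableSet.iUnion fun x => ?_
  refine ((MeasurableSet.const _).inter (MeasurableSet.iInter fun a => ?_)).inter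
    (MeasurableSet.biInter s.countable_toSet fun t _ => ?_)
  · by_cases ha : a ∈ range x
    · have h1 : {c : Code L | a ∈ range x ↔ a ∈ FJ F (toStr c) j} =
          {c : Code L | a ∈ FJ F (toStr c) j} := by
        apply Set.ext
        intro c
        exact ⟨fun h2 => h2.mp ha, fun h2 => ⟨fun _ => h2, fun _ => ha⟩⟩
      rw [h1]
      exact mex_fj hSMB hF j a
    · have h1 : {c : Code L | a ∈ range x ↔ a ∈ FJ F (toStr c) j} =
          {c : Code L | a ∈ FJ F (toStr c) j}ᶜ := by
        apply Set.ext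
        intro c
        exact ⟨fun h2 h3 => ha (h2.mpr h3), fun h2 => ⟨fun h3 => absurd h3 ha, fun h3 => absurd h3 h2⟩⟩
      rw [h1]
      exact (mex_fj hSMB hF j a).compl
  · rcases t with ⟨t, b⟩
    cases b with
    | true =>
      have h1 : {c : Code L | LitS F (toStr c) x (t, true)} =
          {c : Code L | LitT F (toStr c) x t} := by
        apply Set.ext
        intro c
        exact ⟨fun h2 => h2.mpr rfl, fun h2 => ⟨fun _ => rfl, fun _ => h2⟩⟩
      rw [h1]
      exact mex_litT hSMB hF x t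
    | false =>
      have h1 : {c : Code L | LitS F (toStr c) x (t, false)} =
          {c : Code L | LitT F (toStr c) x t}ᶜ := by
        apply Set.ext
        intro c
        exact ⟨fun h2 h3 => Bool.noConfusion (h2.mp h3),
          fun h2 => ⟨fun h3 => absurd h3 h2, fun h3 => Bool.noConfusion h3⟩⟩
      rw [h1]
      exact (mex_litT hSMB hF x t).compl

end GFC
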