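import Pool.Agent.GFC.St

/-!
# GFC, module NUM: the same number of witnesses
-/

set_option autoImplicit false

namespace GFC

open FirstOrder Set Pool.Agent.Helper6.Str Pool.Agent.Helper5.Multi
open CTQ (FG Vr ModG)

theorem thm_NUM : St_NUM := by
  intro L V M N A F S S' f g hCl hG k m I ψ hk v v' hv
  apply ENat.eq_of_forall_natCast_le_iff
  intro m'
  obtain ⟨k', hk'⟩ := hCl.sub k (.ge m' I ψ) (by rw [hk]; exact Sub.num m m' I ψ)
  have h1 := hG.agr k' v v' (by
    intro l hl
    rw [hk', fv_ge] at hl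
    exact hv l hl.1 (fun h => hl.2 h))
  rw [hk', sat_ge_iff, sat_ge_iff] at h1
  exact h1

end GFC
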