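import Pool.Agent.GFC.St

/-!
# GFC, module PAR: comparison of witness sets
-/

set_option autoImplicit false

namespace GFC

open FirstOrder Set Pool.Agent.Helper6.Str Pool.Agent.Helper5.Multi
open CTQ (FG Vr ModG)

theorem thm_PAR : St_PAR := by
  classical
  intro L V M N X S T I ψ v w lam κ hκ h
  have : Nonempty (V → M) := ⟨w⟩
  choose! c hc using h
  refine encard_le_encard_of_injOn (f := c) (fun u hu => (hc u hu).1) ?_
  intro u₁ h₁ u₂ h₂ he
  funext i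
  by_cases hi : i ∈ I
  · obtain ⟨x₁, a₁, b₁⟩ := (hc u₁ h₁).2 i hi
    obtain ⟨x₂, a₂, b₂⟩ := (hc u₂ h₂).2 i hi
    have h3 : κ x₁ = κ x₂ := by rw [← b₁, ← b₂, he]
    rw [a₁, a₂, hκ h3]
  · rw [h₁.1 i hi, h₂.1 i hi]

end GFC
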