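import Pool.Agent.GFC.St

/-!
# GFC, module REP: every structure is a family of pieces (helper6)
-/

set_option autoImplicit false

namespace GFC

open FirstOrder Set Pool.Agent.Helper6.Str Pool.Agent.Helper5.Multi
open CTQ (FG Vr ModG)

variable {L : FirstOrder.Language.{0, 0}} {V M N : Type}

private theorem REP_lk_symm (T : L.Structure N) (B : Set N) {a b : N} (h : Lk T B a b) :
    Lk T B b a := by
  obtain ⟨ha, hb, n, R, x, hx, h1, h2⟩ := h
  exact ⟨hb, ha, n, R, x, hx, h2, h1⟩

private theorem REP_symm (T : L.Structure N) (B : Set N) {a b : N}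
    (h : Relation.ReflTransGen (Lk T B) a b) : Relation.ReflTransGen (Lk T B) b a := by
  induction h with
  | refl => exact Relation.ReflTransGen.refl
  | tail _ h ih => exact Relation.ReflTransGen.head (REP_lk_symm T B h) ih

private theorem REP_lk_not (T : L.Structure N) (B : Set N) {a b : N} (ha : a ∉ B)
    (h : Relation.ReflTransGen (Lk T B) a b) : b ∉ B := by
  rcases Relation.ReflTransGen.cases_tail h with h1 | ⟨c, _, h2⟩
  · rw [h1]
    exact ha
  · exact h2.2.1

/-- The components outside `B`. -/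
private def REP_cl (T : L.Structure ℕ) (B : Set ℕ) : Setoid {x : ℕ // x ∉ B} where
  r x y := Relation.ReflTransGen (Lk T B) x.1 y.1
  iseqv := ⟨fun _ => Relation.ReflTransGen.refl,
    fun h => REP_symm T B h,
    fun h h' => h.trans h'⟩

/-- The elements of a component. -/
private def REP_el (T : L.Structure ℕ) (B : Set ℕ) (i : Quotient (REP_cl T B)) : Set ℕ :=
  {x | ∃ h : x ∉ B, Quotient.mk (REP_cl T B) ⟨x, h⟩ = i}

private theorem REP_el_eq (T : L.Structure ℕ) (B : Set ℕ) (i : Quotient (REP_cl T B)) :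
    REP_el T B i = {x | Relation.ReflTransGen (Lk T B) i.out.1 x} := by
  ext x
  constructor
  · rintro ⟨h, hi⟩
    have h1 : Quotient.mk (REP_cl T B) i.out = Quotient.mk (REP_cl T B) ⟨x, h⟩ := by
      rw [hi, Quotient.out_eq]
    exact Quotient.exact h1
  · intro h
    have h1 : x ∉ B := REP_lk_not T B i.out.2 h
    refine ⟨h1, ?_⟩
    have h2 : Quotient.mk (REP_cl T B) i.out = Quotient.mk (REP_cl T B) ⟨x, h1⟩ :=
      Quotient.sound h
    rw [← h2, Quotient.out_eq]

theorem thm_REP (hGIS : St_GIS) (hCPC : St_CPC) : St_REP := by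
  intro L _ V F S₀ S hS
  obtain ⟨g, hg⟩ := hS
  have hstr : ∀ i : Quotient (REP_cl S (range g)), ∃ str : L.Structure
      (Core F S₀ ⊕ REP_el S (range g) i),
      IsPc F S₀ (REP_el S (range g) i) str S (Sum.elim g Subtype.val) := fun i =>
    hCPC L V F S₀ S g hg i.out.1 i.out.2 _ (REP_el_eq S (range g) i)
  choose str hstr using hstr
  let P : Quotient (REP_cl S (range g)) → Pc F S₀ := fun i =>
    ⟨REP_el S (range g) i, str i, S, Sum.elim g Subtype.val, hstr i⟩
  let e₀ : Pos (Core F S₀) Pc.el P → ℕ := fun a => match a with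
    | .inl a => g a
    | .inr p => p.1.2
  have hpB : ∀ p : {p : Quotient (REP_cl S (range g)) × ℕ // p.2 ∈ (P p.1).el},
      ∃ h : p.1.2 ∉ range g, Quotient.mk (REP_cl S (range g)) ⟨p.1.2, h⟩ = p.1.1 :=
    fun p => p.2
  have hinj : Function.Injective e₀ := by
    rintro (a | p) (b | q) h
    · exact congrArg Sum.inl (hg.injg h)
    · obtain ⟨h1, _⟩ := hpB q
      have h' : g a = q.1.2 := h
      exact absurd ⟨a, h'⟩ h1
    · obtain ⟨h1, _⟩ := hpB p
      have h' : p.1.2 = g b := h
      exact absurd ⟨b, h'.symm⟩ h1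
    · have h' : p.1.2 = q.1.2 := h
      obtain ⟨h1, h2⟩ := hpB p
      obtain ⟨h3, h4⟩ := hpB q
      refine congrArg Sum.inr (Subtype.ext (Prod.ext ?_ h'))
      rw [← h2, ← h4]
      exact congrArg (Quotient.mk _) (Subtype.ext h')
  have hsur : Function.Surjective e₀ := by
    intro x
    by_cases hx : x ∈ range g
    · obtain ⟨a, ha⟩ := hx
      exact ⟨Sum.inl a, ha⟩
    · exact ⟨Sum.inr ⟨(Quotient.mk (REP_cl S (range g)) ⟨x, hx⟩, x), ⟨hx, rfl⟩⟩, rfl⟩
  let e : Pos (Core F S₀) Pc.el P ≃ ℕ := Equiv.ofBijective e₀ ⟨hinj, hsur⟩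
  have hinc : ∀ (i : Quotient (REP_cl S (range g))) (z : Core F S₀ ⊕ (P i).el),
      e (inc P i z) = Sum.elim g Subtype.val z := by
    rintro i (a | x)
    · rfl
    · rfl
  have hrel : RelIso (asmG P) S e := by
    intro n R v
    constructor
    · rintro (⟨y, rfl, hy⟩ | ⟨i, y, rfl, hy⟩)
      · exact (hg.rel n R y).1 hy
      · have h1 := (hstr i).rel n R y |>.1 hy
        have h2 : e ∘ (inc P i ∘ y) = Sum.elim g Subtype.val ∘ y := by
          funext k
          exact hinc i (y k)
        rw [h2]
        exact h1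
    · intro hv
      by_cases hall : ∀ k, ∃ a, v k = Sum.inl a
      · choose y hy using hall
        have h1 : v = Sum.inl ∘ y := funext hy
        subst h1
        exact Or.inl ⟨y, rfl, (hg.rel n R y).2 hv⟩
      · push Not at hall
        obtain ⟨k, hk⟩ := hall
        rcases hvk : v k with a | p
        · exact absurd hvk (hk a)
        · have h1 := (hstr p.1.1).cmp n R (e ∘ v) hv ⟨p.1.2, p.2⟩ k (by
            show e (v k) = p.1.2
            rw [hvk]
            rfl)
          choose z hz using h1
          have h2 : v = inc P p.1.1 ∘ z := by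
            funext k'
            apply e.injective
            show e (v k') = e (inc P p.1.1 (z k'))
            rw [hinc]
            exact (hz k').symm
          refine Or.inr ⟨p.1.1, z, h2, ?_⟩
          have h3 : Sum.elim g Subtype.val ∘ z = e ∘ v := funext hz
          refine ((hstr p.1.1).rel n R z).2 ?_
          rw [h3]
          exact hv
  refine ⟨Quotient (REP_cl S (range g)), inferInstance, P, ⟨?_, ?_⟩, e, hrel⟩
  · exact Infinite.of_injective e.symm e.symm.injective
  · have h1 := hGIS L V ℕ ℕ (Pos (Core F S₀) Pc.el P) (Core F S₀) F S₀ S (asmG P)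
      Subtype.val g e.symm hrel.symm hg
    have h2 : (e.symm ∘ g : Core F S₀ → Pos (Core F S₀) Pc.el P) = Sum.inl := by
      funext a
      show e.symm (g a) = Sum.inl a
      rw [Equiv.symm_apply_eq]
      rfl
    rw [h2] at h1
    exact h1

end GFC
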