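import Pool.Agent.GFC.St

/-!
# GFC [RES]: relations in `asmG P` (helper86)
-/

set_option autoImplicit false

namespace GFC

open FirstOrder Set Pool.Agent.Helper6.Str Pool.Agent.Helper5.Multi
open CTQ (FG Vr ModG)

section

variable {L : FirstOrder.Language.{0, 0}} {V : Type} {F : ℕ → FG L V} {S₀ : L.Structure ℕ}
  {I : Type} (P : I → Pc F S₀)

private theorem res_inl {i : I} {w : Core F S₀ ⊕ (P i).el} {a : Core F S₀}
    (h : inc P i w = Sum.inl a) : w = Sum.inl a := by
  rcases w with b | x
  · have h1 : (Sum.inl b : Pos (Core F S₀) Pc.el P) = Sum.inl a := h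
    rw [Sum.inl.inj h1]
  · have h1 : (Sum.inr ⟨(i, x.1), x.2⟩ : Pos (Core F S₀) Pc.el P) = Sum.inl a := h
    exact absurd h1 (fun h2 => nomatch h2)

private theorem res_inr {i i' : I} {w : Core F S₀ ⊕ (P i').el} {x : (P i).el}
    (h : inc P i (Sum.inr x) = inc P i' w) : i = i' := by
  rcases w with b | y
  · have h1 : (Sum.inr ⟨(i, x.1), x.2⟩ : Pos (Core F S₀) Pc.el P) = Sum.inl b := h
    exact absurd h1 (fun h2 => nomatch h2)
  · have h1 : (Sum.inr ⟨(i, x.1), x.2⟩ : Pos (Core F S₀) Pc.el P) =
        Sum.inr ⟨(i', y.1), y.2⟩ := h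
    have h2 := Sum.inr.inj h1
    exact congrArg (fun p => p.1.1) h2

private theorem res_inj (i : I) : Function.Injective (inc P i) := by
  rintro (a | x) (b | y) h
  · exact (res_inl P h.symm).symm
  · exact (res_inl P h.symm).symm
  · exact res_inl P h
  · have h1 : (Sum.inr ⟨(i, x.1), x.2⟩ : Pos (Core F S₀) Pc.el P) =
        Sum.inr ⟨(i, y.1), y.2⟩ := h
    have h2 := Sum.inr.inj h1
    have h3 : x.1 = y.1 := congrArg (fun p => p.1.2) h2
    rw [Subtype.ext h3]

private theorem res_str (p : Pc F S₀) {n : ℕ} (R : L.Relations n) (z : Fin n → Core F S₀) :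
    p.str.RelMap R (Sum.inl ∘ z) ↔ S₀.RelMap R (fun k => (z k).1) := by
  obtain ⟨S, κ, h⟩ := p.isp
  exact (h.rel n R (Sum.inl ∘ z)).trans (h.good.rel n R z).symm

variable [∀ n, IsEmpty (L.Functions n)]

private theorem res_a (i : I) (n : ℕ) (R : L.Relations n) (y : Fin n → Core F S₀ ⊕ (P i).el) :
    (asmG P).RelMap R (inc P i ∘ y) ↔ (P i).str.RelMap R y := by
  constructor
  · rintro (⟨z, hz, h⟩ | ⟨i', y', hz, h⟩)
    · have h1 : y = Sum.inl ∘ z := funext fun k => res_inl P (congrFun hz k)
      rw [h1]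
      exact (res_str (P i) R z).2 h
    · by_cases hk : ∃ k x, y k = Sum.inr x
      · obtain ⟨k, x, hx⟩ := hk
        have h1 : inc P i (y k) = inc P i' (y' k) := congrFun hz k
        rw [hx] at h1
        have h2 : i = i' := res_inr P h1
        subst h2
        have h3 : y = y' := funext fun k => res_inj P i (congrFun hz k)
        rw [h3]
        exact h
      · have h1 : ∀ k, ∃ a, y k = Sum.inl a := by
          intro k
          rcases hyk : y k with a | x
          · exact ⟨a, rfl⟩
          · exact absurd ⟨k, x, hyk⟩ hk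
        choose z hzz using h1
        have h2 : y = Sum.inl ∘ z := funext hzz
        have h3 : y' = Sum.inl ∘ z := by
          funext k
          have h4 : inc P i (y k) = inc P i' (y' k) := congrFun hz k
          rw [hzz k] at h4
          exact res_inl P h4.symm
        rw [h3] at h
        rw [h2]
        exact (res_str (P i) R z).2 ((res_str (P i') R z).1 h)
  · intro h
    exact Or.inr ⟨i, y, rfl, h⟩

private theorem res_b (n : ℕ) (R : L.Relations n) (y : Fin n → Core F S₀) :
    (asmG P).RelMap R (Sum.inl ∘ y) ↔ S₀.RelMap R (fun k => (y k).1) := by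
  constructor
  · rintro (⟨z, hz, h⟩ | ⟨i, y', hz, h⟩)
    · have h1 : y = z := funext fun k => Sum.inl.inj (congrFun hz k)
      rw [h1]
      exact h
    · have h1 : y' = Sum.inl ∘ y := funext fun k => res_inl P (congrFun hz k).symm
      rw [h1] at h
      exact (res_str (P i) R y).1 h
  · intro h
    exact Or.inl ⟨y, rfl, h⟩

end

/-- [RES] -/
theorem thm_RES : St_RES := fun _ _ _ _ _ _ P => ⟨res_a P, res_b P, res_inj P⟩

end GFC
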