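import Pool.Agent.GFC.St

/-!
# GFC, module SMB: truth is a Borel property
-/

set_option autoImplicit false

namespace GFC

open FirstOrder Set Pool.Agent.Helper6.Str Pool.Agent.Helper5.Multi
open CTQ (FG Vr ModG)

private theorem smb_le_encard {X β : Type} [MeasurableSpace X] [Countable β] (A : X → Set β)
    (hA : ∀ b, MeasurableSet {x | b ∈ A x}) (n : ℕ) :
    MeasurableSet {x | (n : ℕ∞) ≤ (A x).encard} := by
  have h : {x | (n : ℕ∞) ≤ (A x).encard} =
      ⋃ t ∈ {t : Finset β | t.card = n}, ⋂ b ∈ t, {x | b ∈ A x} := by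
    ext x
    simp only [mem_ofPred_eq, mem_iUnion, mem_iInter, exists_prop]
    constructor
    · intro hx
      obtain ⟨B, hB, hBc⟩ := Set.exists_subset_encard_eq hx
      have hfin : B.Finite := Set.finite_of_encard_eq_coe hBc
      refine ⟨hfin.toFinset, ?_, fun b hb => hB (hfin.mem_toFinset.1 hb)⟩
      have h1 : ((hfin.toFinset.card : ℕ) : ℕ∞) = (n : ℕ∞) := by
        rw [← hBc, ← hfin.encard_eq_coe_toFinset_card]
      exact_mod_cast h1
    · rintro ⟨t, ht, h1⟩
      have h2 : (t : Set β) ⊆ A x := fun b hb => h1 b hb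
      calc (n : ℕ∞) = (t : Set β).encard := by rw [Set.encard_coe_eq_coe_finsetCard, ht]
        _ ≤ _ := Set.encard_le_encard h2
  rw [h]
  exact MeasurableSet.biUnion (Set.to_countable _) fun t _ =>
    MeasurableSet.biInter (Set.to_countable _) fun b _ => hA b

/-- the assignment with the values `z` on `I` -/
private noncomputable def smbExt {V M : Type} (I : Finset V) (v : V → M) (z : I → M) : V → M :=
  open Classical in fun i => if h : i ∈ I then z ⟨i, h⟩ else v i

private theorem smb_encard {L : FirstOrder.Language.{0, 0}} {V M : Type} (S : L.Structure M)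
    (I : Finset V) (φ : FG L V) (v : V → M) :
    (Wt S I φ v).encard = {z : I → M | φ.Sat S (smbExt I v z)}.encard := by
  classical
  have h : Wt S I φ v = smbExt I v '' {z : I → M | φ.Sat S (smbExt I v z)} := by
    apply Set.ext
    intro u
    constructor
    · rintro ⟨h1, h2⟩
      have h3 : smbExt I v (fun i => u i.1) = u := by
        funext i
        unfold smbExt
        split_ifs with hi
        · rfl
        · exact (h1 i hi).symm
      refine ⟨fun i => u i.1, ?_, h3⟩
      show φ.Sat S _
      rw [h3]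
      exact h2
    · rintro ⟨z, hz, rfl⟩
      refine ⟨fun j hj => ?_, hz⟩
      unfold smbExt
      rw [dif_neg hj]
  rw [h]
  refine Function.Injective.encard_image ?_ _
  intro z z' hzz
  funext i
  have h1 := congrFun hzz i.1
  unfold smbExt at h1
  rw [dif_pos i.2, dif_pos i.2] at h1
  exact h1

private theorem smb_ge {L : FirstOrder.Language.{0, 0}} [∀ n, IsEmpty (L.Functions n)]
    [∀ n, Countable (L.Relations n)] {V : Type} (φ : FG L V)
    (hφ : ∀ v : V → ℕ, MeasurableSet {c : Code L | φ.Sat (toStr c) v}) (I : Finset V)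
    (v : V → ℕ) (n : ℕ) :
    MeasurableSet {c : Code L | (n : ℕ∞) ≤ (Wt (toStr c) I φ v).encard} := by
  have h : {c : Code L | (n : ℕ∞) ≤ (Wt (toStr c) I φ v).encard} =
      {c : Code L | (n : ℕ∞) ≤ {z : I → ℕ | φ.Sat (toStr c) (smbExt I v z)}.encard} := by
    apply Set.ext
    intro c
    show (n : ℕ∞) ≤ _ ↔ (n : ℕ∞) ≤ _
    rw [smb_encard]
  rw [h]
  exact smb_le_encard (fun c : Code L => {z : I → ℕ | φ.Sat (toStr c) (smbExt I v z)})
    (fun z => hφ (smbExt I v z)) n

private theorem smb_sat {L : FirstOrder.Language.{0, 0}} [∀ n, IsEmpty (L.Functions n)]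
    [∀ n, Countable (L.Relations n)] {V : Type} (φ : FG L V) :
    ∀ v : V → ℕ, MeasurableSet {c : Code L | φ.Sat (toStr c) v} := by
  induction φ with
  | eq i j => intro v; exact MeasurableSet.const _
  | rel R w => intro v; exact measurableSet_relMap R _
  | neg φ ih => intro v; exact (ih v).compl
  | conj φ ih =>
    intro v
    have h : {c : Code L | (FG.conj φ).Sat (toStr c) v} =
        ⋂ m, {c : Code L | (φ m).Sat (toStr c) v} := by
      apply Set.ext
      intro c
      simp only [mem_iInter, mem_ofPred_eq]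
      exact Iff.rfl
    rw [h]
    exact MeasurableSet.iInter fun m => ih m v
  | ge m I φ ih =>
    intro v
    exact smb_ge φ ih I v m

theorem thm_SMB : St_SMB := by
  intro L _ _ V φ v
  refine ⟨smb_sat φ v, fun I => ?_⟩
  have h : {c : Code L | (Wt (toStr c) I φ v).Finite} =
      ⋃ n : ℕ, {c : Code L | (n : ℕ∞) ≤ (Wt (toStr c) I φ v).encard}ᶜ := by
    apply Set.ext
    intro c
    simp only [mem_iUnion, mem_compl_iff, mem_ofPred_eq, not_le]
    rw [← Set.encard_lt_top_iff]
    constructor
    · intro h1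
      obtain ⟨k, hk⟩ := ENat.ne_top_iff_exists.1 h1.ne
      refine ⟨k + 1, ?_⟩
      rw [← hk]
      exact_mod_cast Nat.lt_succ_self k
    · rintro ⟨n, hn⟩
      exact hn.trans_le le_top
  rw [h]
  exact MeasurableSet.iUnion fun n => (smb_ge φ (smb_sat φ) I v n).compl

end GFC
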