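import Pool.Agent.GFC.St

/-!
# GFC: the truth lemma (helper30)
-/

set_option autoImplicit false

namespace GFC

open FirstOrder Set Pool.Agent.Helper6.Str Pool.Agent.Helper5.Multi
open CTQ (FG Vr ModG)

/-- The truth lemma. -/
theorem thm_TRG (hWIA : St_WIA) (hWIB : St_WIB) : St_TRG := by
  intro L V M₀ A N C F S₀ f₀ T g ch c0 hcl hne hglu
  have key : ∀ ψ : FG L V, ∀ k, F k = ψ → Tru ch ψ := by
    intro ψ
    induction ψ with
    | eq i j =>
      intro k hk c v w h
      obtain ⟨x, hx1, hx2⟩ := h i (Or.inl rfl)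
      obtain ⟨y, hy1, hy2⟩ := h j (Or.inr rfl)
      rw [FG.sat_eq, FG.sat_eq, hx1, hx2, hy1, hy2]
      exact ⟨fun e => congrArg _ ((ch c).lami e), fun e => congrArg _ ((ch c).κi e)⟩
    | rel R w' =>
      intro k hk c v w h
      choose x hx using fun i => h (w' i) ⟨i, rfl⟩
      rw [FG.sat_rel, FG.sat_rel]
      have e1 : (fun i => v (w' i)) = (ch c).lam ∘ x := funext fun i => (hx i).1
      have e2 : (fun i => w (w' i)) = (ch c).κ ∘ x := funext fun i => (hx i).2
      rw [e1, e2]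
      exact ((ch c).rel _ R x).symm
    | neg φ ih =>
      intro k hk c v w h
      obtain ⟨k', hk'⟩ := hcl.sub k φ (hk ▸ Sub.neg φ)
      rw [FG.sat_neg, FG.sat_neg]
      exact not_congr (ih k' hk' c v w h)
    | conj φ ih =>
      intro k hk c v w h
      rw [FG.sat_conj, FG.sat_conj]
      refine forall_congr' fun m => ?_
      obtain ⟨k', hk'⟩ := hcl.sub k (φ m) (hk ▸ Sub.conj φ m)
      exact ih m k' hk' c v w fun l hl => h l (mem_iUnion.2 ⟨m, hl⟩)
    | ge m I φ ih =>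
      intro k hk c v w h
      obtain ⟨k', hk'⟩ := hcl.sub k φ (hk ▸ Sub.ge m I φ)
      have htru : Tru ch φ := ih k' hk'
      have h' : ∀ l ∈ φ.fv, l ∉ I → ∃ x, v l = (ch c).lam x ∧ w l = (ch c).κ x :=
        fun l hl hI => h l ⟨hl, hI⟩
      have e : (Wt T I φ v).encard = (Wt (ch c).S I φ w).encard := by
        by_cases hc : ∃ l₀, l₀ ∈ φ.fv ∧ l₀ ∉ I ∧ v l₀ ∉ range g
        · obtain ⟨l₀, h1, h2, h3⟩ := hc
          exact hWIA L V M₀ A N C F S₀ f₀ T g ch c0 hcl hglu k m I φ hk htru c v w h' l₀ h1 h2 h3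
        · push Not at hc
          exact (hWIB L V M₀ A N C F S₀ f₀ T g ch c0 hcl hne hglu k m I φ hk htru c v w h' hc).1
      rw [sat_ge_iff, sat_ge_iff, e]
  exact fun k => key (F k) k rfl

end GFC
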