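import Pool.Agent.GFC.St

/-!
# GFC, module WIA: the number of witnesses, some value outside the base (helper55)
-/

set_option autoImplicit false

namespace GFC

open FirstOrder Set Pool.Agent.Helper6.Str Pool.Agent.Helper5.Multi
open CTQ (FG Vr ModG)

theorem thm_WIA (hPAR : St_PAR) : St_WIA := by
  classical
  intro L V M₀ A N C F S₀ f₀ T g ch c0 hCl hG k m I ψ hk hT c v w hvw l₀ hl₀ hl₀I hv₀
  obtain ⟨x₀, hx1, hx2⟩ := hvw l₀ hl₀ hl₀I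
  have hx0 : x₀ ∉ range (ch c).b := by
    rintro ⟨a, rfl⟩
    exact hv₀ ⟨a, by rw [hx1, (ch c).lamb a]⟩
  have hl : l₀ ∈ ψ.fv ∪ (I : Set V) := Or.inl hl₀
  refine le_antisymm ?_ ?_
  · refine hPAR L V (ch c).M N (ch c).X (ch c).S T I ψ v w (ch c).lam (ch c).κ (ch c).κi ?_
    rintro u ⟨hu1, hu2⟩
    have h0 : u l₀ = (ch c).lam x₀ := (hu1 l₀ hl₀I).trans hx1
    have h1 : ∀ l ∈ ψ.fv ∪ (I : Set V), ∃ x, u l = (ch c).lam x := by
      intro l hl'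
      rcases hCl.grd k m I ψ hk N T u hu2 with hs | ⟨n, R, y, hy, hsub⟩
      · exact ⟨x₀, (hs ⟨l, hl', rfl⟩ ⟨l₀, hl, rfl⟩).trans h0⟩
      · obtain ⟨c', hc'⟩ := hG.covR n R y hy
        obtain ⟨i₀, hi₀⟩ := hsub ⟨l₀, hl, rfl⟩
        obtain ⟨x', hx'⟩ := hc' i₀
        obtain ⟨i, hi⟩ := hsub ⟨l, hl', rfl⟩
        have hcc : c = c' := by
          by_contra hne
          exact hx0 (hG.dis c c' x₀ x' hne (by rw [hx', hi₀, h0]))
        subst hcc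
        obtain ⟨x, hx⟩ := hc' i
        exact ⟨x, by rw [hx, hi]⟩
    have h2 : ∀ l, ∃ x, l ∈ ψ.fv ∪ (I : Set V) → u l = (ch c).lam x := by
      intro l
      by_cases hl' : l ∈ ψ.fv ∪ (I : Set V)
      · obtain ⟨x, hx⟩ := h1 l hl'
        exact ⟨x, fun _ => hx⟩
      · exact ⟨x₀, fun h => absurd h hl'⟩
    choose x hx using h2
    refine ⟨fun i => if i ∈ I then (ch c).κ (x i) else w i, ⟨fun j hj => if_neg hj, ?_⟩,
      fun i hi => ⟨x i, hx i (Or.inr hi), if_pos hi⟩⟩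
    refine (hT c u _ fun l hlf => ?_).1 hu2
    by_cases hlI : l ∈ I
    · exact ⟨x l, hx l (Or.inl hlf), if_pos hlI⟩
    · obtain ⟨z, hz1, hz2⟩ := hvw l hlf hlI
      exact ⟨z, (hu1 l hlI).trans hz1, (if_neg hlI).trans hz2⟩
  · refine hPAR L V N (ch c).M (ch c).X T (ch c).S I ψ w v (ch c).κ (ch c).lam (ch c).lami ?_
    rintro u ⟨hu1, hu2⟩
    have h0 : u l₀ = (ch c).κ x₀ := (hu1 l₀ hl₀I).trans hx2
    have h1 : ∀ l ∈ ψ.fv ∪ (I : Set V), ∃ x, u l = (ch c).κ x := by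
      intro l hl'
      rcases hCl.grd k m I ψ hk (ch c).M (ch c).S u hu2 with hs | ⟨n, R, y, hy, hsub⟩
      · exact ⟨x₀, (hs ⟨l, hl', rfl⟩ ⟨l₀, hl, rfl⟩).trans h0⟩
      · obtain ⟨i₀, hi₀⟩ := hsub ⟨l₀, hl, rfl⟩
        obtain ⟨i, hi⟩ := hsub ⟨l, hl', rfl⟩
        obtain ⟨x, hx⟩ := (ch c).cmp n R y hy x₀ i₀ (hi₀.trans h0) hx0 i
        exact ⟨x, by rw [hx, hi]⟩
    have h2 : ∀ l, ∃ x, l ∈ ψ.fv ∪ (I : Set V) → u l = (ch c).κ x := by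
      intro l
      by_cases hl' : l ∈ ψ.fv ∪ (I : Set V)
      · obtain ⟨x, hx⟩ := h1 l hl'
        exact ⟨x, fun _ => hx⟩
      · exact ⟨x₀, fun h => absurd h hl'⟩
    choose x hx using h2
    refine ⟨fun i => if i ∈ I then (ch c).lam (x i) else v i, ⟨fun j hj => if_neg hj, ?_⟩,
      fun i hi => ⟨x i, hx i (Or.inr hi), if_pos hi⟩⟩
    refine (hT c _ u fun l hlf => ?_).2 hu2
    by_cases hlI : l ∈ I
    · exact ⟨x l, if_pos hlI, hx l (Or.inl hlf)⟩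
    · obtain ⟨z, hz1, hz2⟩ := hvw l hlf hlI
      exact ⟨z, (if_neg hlI).trans hz1, (hu1 l hlI).trans hz2⟩

end GFC
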