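import Pool.Agent.GFC.St

/-!
# GFC, module WIB: the number of witnesses, all values in the base
-/

set_option autoImplicit false

namespace GFC

open FirstOrder Set Pool.Agent.Helper6.Str Pool.Agent.Helper5.Multi
open CTQ (FG Vr ModG)

/-- The set of the witnesses depends only on the values off `I`. -/
private theorem WIB_wt {L : FirstOrder.Language.{0, 0}} {V M : Type} (S : L.Structure M)
    (I : Finset V) (ψ : FG L V) {u w : V → M} (h : ∀ j, j ∉ I → u j = w j) :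
    Wt S I ψ u = Wt S I ψ w := by
  ext z
  constructor
  · rintro ⟨h1, h2⟩
    exact ⟨fun j hj => (h1 j hj).trans (h j hj), h2⟩
  · rintro ⟨h1, h2⟩
    exact ⟨fun j hj => (h1 j hj).trans (h j hj).symm, h2⟩

theorem thm_WIB (hPAR : St_PAR) (hNUM : St_NUM) : St_WIB := by
  classical
  intro L V M₀ A N C F S₀ f₀ T g ch c0 hF hM₀ hG k m I ψ hk hT c v w hvw hbase
  -- the values in the base
  obtain ⟨a, ha⟩ : ∃ a : ∀ l, l ∈ ψ.fv → l ∉ I → A, ∀ l h1 h2, g (a l h1 h2) = v l :=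
    ⟨fun l h1 h2 => (hbase l h1 h2).choose, fun l h1 h2 => (hbase l h1 h2).choose_spec⟩
  -- the assignment in the chart `c'`
  let wc : ∀ c' : C, V → (ch c').M := fun c' l =>
    if h : l ∈ ψ.fv ∧ l ∉ I then (ch c').f (a l h.1 h.2) else (ch c').ne.some
  have hwc : ∀ (c' : C) l h1 h2, wc c' l = (ch c').f (a l h1 h2) := fun c' l h1 h2 =>
    dif_pos (⟨h1, h2⟩ : l ∈ ψ.fv ∧ l ∉ I)
  let v₀ : V → M₀ := fun l =>
    if h : l ∈ ψ.fv ∧ l ∉ I then f₀ (a l h.1 h.2) else hM₀.some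
  have hv₀ : ∀ l h1 h2, v₀ l = f₀ (a l h1 h2) := fun l h1 h2 =>
    dif_pos (⟨h1, h2⟩ : l ∈ ψ.fv ∧ l ∉ I)
  -- the number of witnesses in the charts
  have hnum : ∀ (c' : C) (w' : V → (ch c').M), (∀ l h1 h2, w' l = (ch c').f (a l h1 h2)) →
      (Wt S₀ I ψ v₀).encard = (Wt (ch c').S I ψ w').encard := fun c' w' hw' =>
    hNUM L V M₀ (ch c').M A F S₀ (ch c').S f₀ (ch c').f hF (ch c').good k m I ψ hk v₀ w'
      fun l h1 h2 => ⟨a l h1 h2, hv₀ l h1 h2, hw' l h1 h2⟩
  have hw : ∀ l h1 h2, w l = (ch c).f (a l h1 h2) := by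
    intro l h1 h2
    obtain ⟨x, hx1, hx2⟩ := hvw l h1 h2
    have h3 : (ch c).lam x = (ch c).lam ((ch c).b (a l h1 h2)) := by
      rw [(ch c).lamb, ha, hx1]
    rw [hx2, (ch c).lami h3, (ch c).κb]
  have hcore : ∀ (c' : C) (w' : V → (ch c').M), (∀ l h1 h2, w' l = (ch c').f (a l h1 h2)) →
      ∀ l ∈ ψ.fv, l ∉ I → ∃ x, v l = (ch c').lam x ∧ w' l = (ch c').κ x := by
    intro c' w' hw' l h1 h2
    refine ⟨(ch c').b (a l h1 h2), ?_, ?_⟩
    · rw [(ch c').lamb, ha]
    · rw [(ch c').κb, hw']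
  by_cases hfin : (Wt S₀ I ψ v₀).Finite
  · -- (A) finitely many witnesses
    have hfinc : ∀ (c' : C) (w' : V → (ch c').M), (∀ l h1 h2, w' l = (ch c').f (a l h1 h2)) →
        (Wt (ch c').S I ψ w').Finite := by
      intro c' w' hw'
      rw [← Set.encard_ne_top_iff, ← hnum c' w' hw']
      exact Set.encard_ne_top_iff.2 hfin
    -- witnesses in a chart
    have hwg : ∀ (c' : C) (w' : V → (ch c').M), (∀ l h1 h2, w' l = (ch c').f (a l h1 h2)) →
        ∀ u' ∈ Wt (ch c').S I ψ w', ∀ i ∈ I, u' i ∈ range (ch c').f := by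
      intro c' w' hw' u' hu'
      refine (ch c').good.wg k m I ψ hk u' (fun l h1 h2 => ?_) hu'.2 ?_
      · rw [hu'.1 l h2, hw' l h1 h2]
        exact ⟨_, rfl⟩
      · rw [WIB_wt (ch c').S I ψ hu'.1]
        exact hfinc c' w' hw'
    -- the second part
    have hsec : ∀ u ∈ Wt T I ψ v, ∀ i ∈ I, u i ∈ range g := by
      intro u hu
      obtain ⟨c', hc'⟩ : ∃ c', ∀ l ∈ ψ.fv ∪ (I : Set V), u l ∈ range (ch c').lam := by
        rcases hF.grd k m I ψ hk N T u hu.2 with hs | ⟨n, R, x, hR, hx⟩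
        · by_cases hne : (ψ.fv ∪ (I : Set V)).Nonempty
          · obtain ⟨l₁, hl₁⟩ := hne
            obtain ⟨c', hc'⟩ := hG.cov (u l₁)
            refine ⟨c', fun l hl => ?_⟩
            rw [hs (mem_image_of_mem u hl) (mem_image_of_mem u hl₁)]
            exact hc'
          · exact ⟨c0, fun l hl => absurd ⟨l, hl⟩ hne⟩
        · obtain ⟨c', hc'⟩ := hG.covR n R x hR
          refine ⟨c', fun l hl => ?_⟩
          obtain ⟨i, hi⟩ := hx (mem_image_of_mem u hl)
          rw [← hi]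
          exact hc' i
      obtain ⟨x, hx⟩ : ∃ x : ∀ i, i ∈ I → (ch c').X, ∀ i hi, (ch c').lam (x i hi) = u i :=
        ⟨fun i hi => (hc' i (Or.inr hi)).choose, fun i hi => (hc' i (Or.inr hi)).choose_spec⟩
      let u' : V → (ch c').M := fun i => if h : i ∈ I then (ch c').κ (x i h) else wc c' i
      have hu'I : ∀ i (hi : i ∈ I), u' i = (ch c').κ (x i hi) := fun i hi => dif_pos hi
      have hu'n : ∀ i, i ∉ I → u' i = wc c' i := fun i hi => dif_neg hi
      have hu' : u' ∈ Wt (ch c').S I ψ (wc c') := by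
        refine ⟨hu'n, (hT c' u u' fun l hl => ?_).1 hu.2⟩
        by_cases hI : l ∈ I
        · exact ⟨x l hI, (hx l hI).symm, hu'I l hI⟩
        · rw [hu.1 l hI, hu'n l hI]
          exact hcore c' (wc c') (hwc c') l hl hI
      intro i hi
      obtain ⟨a', ha'⟩ := hwg c' (wc c') (hwc c') u' hu' i hi
      rw [hu'I i hi, ← (ch c').κb] at ha'
      have h3 := (ch c').κi ha'
      refine ⟨a', ?_⟩
      rw [← (ch c').lamb, h3, hx]
    refine ⟨le_antisymm ?_ ?_, fun _ => hsec⟩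
    · refine hPAR L V (ch c).M N (ch c).X (ch c).S T I ψ v w (ch c).lam (ch c).κ (ch c).κi ?_
      intro u hu
      obtain ⟨a', ha'⟩ : ∃ a' : ∀ i, i ∈ I → A, ∀ i hi, g (a' i hi) = u i :=
        ⟨fun i hi => (hsec u hu i hi).choose, fun i hi => (hsec u hu i hi).choose_spec⟩
      let u' : V → (ch c).M := fun i => if h : i ∈ I then (ch c).f (a' i h) else w i
      have hu'I : ∀ i (hi : i ∈ I), u' i = (ch c).f (a' i hi) := fun i hi => dif_pos hi
      have hu'n : ∀ i, i ∉ I → u' i = w i := fun i hi => dif_neg hi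
      have hx : ∀ i ∈ I, ∃ x, u i = (ch c).lam x ∧ u' i = (ch c).κ x := by
        intro i hi
        refine ⟨(ch c).b (a' i hi), ?_, ?_⟩
        · rw [(ch c).lamb, ha']
        · rw [(ch c).κb, hu'I]
      refine ⟨u', ⟨hu'n, (hT c u u' fun l hl => ?_).1 hu.2⟩, hx⟩
      by_cases hI : l ∈ I
      · exact hx l hI
      · rw [hu.1 l hI, hu'n l hI]
        exact hvw l hl hI
    · refine hPAR L V N (ch c).M (ch c).X T (ch c).S I ψ w v (ch c).κ (ch c).lam (ch c).lami ?_
      intro u' hu'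
      have h1 := hwg c w hw u' hu'
      obtain ⟨a', ha'⟩ : ∃ a' : ∀ i, i ∈ I → A, ∀ i hi, (ch c).f (a' i hi) = u' i :=
        ⟨fun i hi => (h1 i hi).choose, fun i hi => (h1 i hi).choose_spec⟩
      let u : V → N := fun i => if h : i ∈ I then g (a' i h) else v i
      have huI : ∀ i (hi : i ∈ I), u i = g (a' i hi) := fun i hi => dif_pos hi
      have hun : ∀ i, i ∉ I → u i = v i := fun i hi => dif_neg hi
      have hx : ∀ i ∈ I, ∃ x, u' i = (ch c).κ x ∧ u i = (ch c).lam x := by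
        intro i hi
        refine ⟨(ch c).b (a' i hi), ?_, ?_⟩
        · rw [(ch c).κb, ha']
        · rw [(ch c).lamb, huI]
      refine ⟨u, ⟨hun, (hT c u u' fun l hl => ?_).2 hu'.2⟩, hx⟩
      by_cases hI : l ∈ I
      · obtain ⟨x, hx1, hx2⟩ := hx l hI
        exact ⟨x, hx2, hx1⟩
      · rw [hun l hI, hu'.1 l hI]
        exact hvw l hl hI
  · -- (B) infinitely many witnesses
    have htop : (Wt S₀ I ψ v₀).encard = ⊤ := Set.encard_eq_top_iff.2 hfin
    have h1 : (Wt (ch c0).S I ψ (wc c0)).encard ≤ (Wt T I ψ v).encard := by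
      refine hPAR L V N (ch c0).M (ch c0).X T (ch c0).S I ψ (wc c0) v (ch c0).κ (ch c0).lam
        (ch c0).lami ?_
      intro u' hu'
      obtain ⟨x, hx⟩ : ∃ x : V → (ch c0).X, ∀ i, (ch c0).κ (x i) = u' i :=
        ⟨fun i => (hG.full (u' i)).choose, fun i => (hG.full (u' i)).choose_spec⟩
      let u : V → N := fun i => if i ∈ I then (ch c0).lam (x i) else v i
      have huI : ∀ i, i ∈ I → u i = (ch c0).lam (x i) := fun i hi => if_pos hi
      have hun : ∀ i, i ∉ I → u i = v i := fun i hi => if_neg hi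
      refine ⟨u, ⟨hun, (hT c0 u u' fun l hl => ?_).2 hu'.2⟩, fun i hi =>
        ⟨x i, (hx i).symm, huI i hi⟩⟩
      by_cases hI : l ∈ I
      · exact ⟨x l, huI l hI, (hx l).symm⟩
      · rw [hun l hI, hu'.1 l hI]
        exact hcore c0 (wc c0) (hwc c0) l hl hI
    rw [← hnum c0 (wc c0) (hwc c0), htop, top_le_iff] at h1
    refine ⟨?_, fun hf => ?_⟩
    · rw [h1, ← hnum c w hw, htop]
    · exact absurd h1 (Set.encard_ne_top_iff.2 hf)

end GFC
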