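import Pool.Agent.GFC.CLF
import Pool.Agent.GFC.FIN
import Pool.Agent.GFC.NUM
import Pool.Agent.GFC.FJE
import Pool.Agent.GFC.GIS
import Pool.Agent.GFC.PAR
import Pool.Agent.GFC.WIA
import Pool.Agent.GFC.WIB
import Pool.Agent.GFC.TRG
import Pool.Agent.GFC.GLU
import Pool.Agent.GFC.RES
import Pool.Agent.GFC.EMB
import Pool.Agent.GFC.CGR
import Pool.Agent.GFC.CONX
import Pool.Agent.GFC.DEA
import Pool.Agent.GFC.DEC
import Pool.Agent.GFC.CPC
import Pool.Agent.GFC.REP
import Pool.Agent.GFC.MON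
import Pool.Agent.GFC.FRG
import Pool.Agent.GFC.SMB
import Pool.Agent.GFC.MEX
import Pool.Agent.GFC.IVE
import Pool.Agent.GFC.APX
import Pool.Agent.GFC.KOE
import Pool.Agent.GFC.CRE
import Pool.Agent.GFC.GFA

/-!
# GFC: assembly (helper22)
-/

set_option autoImplicit false

namespace GFC

open FirstOrder Set Pool.Agent.Helper6.Str Pool.Agent.Helper5.Multi
open CTQ (FG Vr ModG)

theorem all_WIB : St_WIB := thm_WIB thm_PAR thm_NUM

theorem all_WIA : St_WIA := thm_WIA thm_PAR

theorem all_TRG : St_TRG := thm_TRG all_WIA all_WIB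

theorem all_GLU : St_GLU := thm_GLU all_TRG all_WIB

theorem all_EMB : St_EMB := thm_EMB thm_RES

theorem all_MON : St_MON := thm_MON all_GLU all_EMB thm_RES

theorem all_DEC : St_DEC := thm_DEC (thm_FJE thm_NUM) thm_GIS (thm_CON thm_RES) (thm_DEA thm_RES)

theorem all_REP : St_REP := thm_REP thm_GIS thm_CPC

theorem all_FRG : St_FRG := thm_FRG thm_GIS (thm_CGR thm_RES) all_EMB all_DEC all_REP all_MON

theorem all_CRE : St_CRE := thm_CRE thm_SMB (thm_MEX thm_SMB) thm_IVE (thm_APX thm_FIN) (thm_KOE thm_FIN)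

theorem all_GFA : St_GFA := thm_GFA thm_CLF all_FRG all_CRE

end GFC

namespace CTQ

open FirstOrder Pool.Agent.Helper6.Str

/-- Vaught's conjecture for sentences of infinitary logic in which every quantified subformula is
guarded or has at most one variable. -/
theorem all_GFC (L : FirstOrder.Language.{0, 0}) (hc : Countable L.Symbols)
    (hrel : ∀ n, IsEmpty (L.Functions n)) (n : ℕ∞) (φ : FG L (Vr n)) (h0 : φ.fv = ∅)
    (h1 : FG.Gd 1 φ) : CtblK (ModG φ) ∨ PerfK (ModG φ) := by
  have h2 : ∀ n, Countable (L.Relations n) := fun n => countable_relations hc n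
  exact GFC.all_GFA L (Vr n) φ h0 h1

end CTQ
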