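import Pool.Agent.GFC.St

/-!
# GFC, module CLF: the closed family of a sentence
-/

set_option autoImplicit false
set_option linter.unusedVariables false

namespace GFC

open FirstOrder Set Pool.Agent.Helper6.Str Pool.Agent.Helper5.Multi
open CTQ (FG Vr ModG)

variable {L : FirstOrder.Language.{0, 0}} {V : Type}

/-- the closure of a formula -/
private noncomputable def cl (φ : FG L V) : Set (FG L V) :=
  FG.rec (motive := fun _ => Set (FG L V))
    (fun i j => {FG.eq i j})
    (fun R w => {FG.rel R w})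
    (fun φ ih => insert (FG.neg φ) ih)
    (fun φ ih => insert (FG.conj φ) (⋃ m, ih m))
    (fun _ I φ ih => range (fun m' : ℕ => FG.ge m' I φ) ∪ ih)
    φ

private theorem cl_self (φ : FG L V) : φ ∈ cl φ := by
  cases φ with
  | eq i j => exact rfl
  | rel R w => exact rfl
  | neg φ => exact Or.inl rfl
  | conj f => exact Or.inl rfl
  | ge m I φ => exact Or.inl ⟨m, rfl⟩

private theorem cl_ctbl (φ : FG L V) : (cl φ).Countable := by
  induction φ with
  | eq i j => exact countable_singleton _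
  | rel R w => exact countable_singleton _
  | neg φ ih => exact ih.insert _
  | conj f ih => exact (countable_iUnion ih).insert _
  | ge m I φ ih => exact (countable_range _).union ih

private theorem cl_sub (φ : FG L V) : ∀ ψ' ∈ cl φ, ∀ ψ, Sub ψ ψ' → ψ ∈ cl φ := by
  induction φ with
  | eq i j =>
    rintro ψ' h ψ hs
    have h1 : ψ' = FG.eq i j := h
    subst h1
    cases hs
  | rel R w =>
    rintro ψ' h ψ hs
    have h1 : ψ' = FG.rel R w := h
    subst h1
    cases hs
  | neg φ ih =>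
    rintro ψ' (h | h) ψ hs
    · subst h
      cases hs
      exact Or.inr (cl_self φ)
    · exact Or.inr (ih ψ' h ψ hs)
  | conj f ih =>
    rintro ψ' (h | h) ψ hs
    · subst h
      cases hs with
      | conj _ m => exact Or.inr (mem_iUnion.2 ⟨m, cl_self (f m)⟩)
    · obtain ⟨m, hm⟩ := mem_iUnion.1 h
      exact Or.inr (mem_iUnion.2 ⟨m, ih m ψ' hm ψ hs⟩)
  | ge m I φ ih =>
    rintro ψ' (⟨m', rfl⟩ | h) ψ hs
    · cases hs with
      | ge => exact Or.inr (cl_self φ)
      | num _ m'' => exact Or.inl ⟨m'', rfl⟩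
    · exact Or.inr (ih ψ' h ψ hs)

private theorem cl_prop (φ : FG L V) : φ.fv.Finite → FG.Gd 1 φ →
    ∀ ψ ∈ cl φ, ψ.fv.Finite ∧ FG.Gd 1 ψ := by
  induction φ with
  | eq i j =>
    rintro h1 h2 ψ h
    have h3 : ψ = FG.eq i j := h
    subst h3
    exact ⟨h1, h2⟩
  | rel R w =>
    rintro h1 h2 ψ h
    have h3 : ψ = FG.rel R w := h
    subst h3
    exact ⟨h1, h2⟩
  | neg φ ih =>
    rintro h1 h2 ψ (h | h)
    · subst h
      exact ⟨h1, h2⟩
    · exact ih h1 h2 ψ h
  | conj f ih =>
    rintro h1 h2 ψ (h | h)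
    · subst h
      exact ⟨h1, h2⟩
    · obtain ⟨m, hm⟩ := mem_iUnion.1 h
      refine ih m ?_ (h2 m) ψ hm
      rw [FG.fv_conj] at h1
      exact h1.subset (subset_iUnion (fun m => (f m).fv) m)
  | ge m I φ ih =>
    rintro h1 h2 ψ (⟨m', rfl⟩ | h)
    · exact ⟨h1, h2⟩
    · refine ih ?_ h2.1 ψ h
      rw [FG.fv_ge] at h1
      refine (h1.union I.finite_toSet).subset fun x hx => ?_
      by_cases hI : x ∈ (I : Set V)
      · exact Or.inr hI
      · exact Or.inl ⟨hx, hI⟩

theorem thm_CLF : St_CLF := by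
  intro L V φ hφ hG
  have hfin : φ.fv.Finite := by
    rw [hφ]
    exact finite_empty
  obtain ⟨f, hf⟩ := (cl_ctbl φ).exists_eq_range ⟨φ, cl_self φ⟩
  let F : ℕ → FG L V := fun n => Nat.casesOn n φ f
  have hF : ∀ k, F k ∈ cl φ := by
    intro k
    cases k with
    | zero => exact cl_self φ
    | succ n =>
      rw [hf]
      exact ⟨n, rfl⟩
  refine ⟨F, rfl, ?_, ?_, ?_⟩
  · intro k ψ hs
    have h1 := cl_sub φ (F k) (hF k) ψ hs
    rw [hf] at h1
    obtain ⟨n, hn⟩ := h1
    exact ⟨n + 1, hn⟩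
  · exact fun k => (cl_prop φ hfin hG (F k) (hF k)).1
  · intro k m I ψ hk M S u hu
    have h1 := (cl_prop φ hfin hG (F k) (hF k)).2
    rw [hk] at h1
    rcases h1.2 with h2 | ⟨g, j, n, R, w, rfl, hj, hX⟩
    · left
      exact (encard_le_one_iff_subsingleton.1 h2).image u
    · right
      refine ⟨n, R, u ∘ w, ?_, ?_⟩
      · have h3 : (g j).Sat S u := hu j
        rw [hj] at h3
        exact h3
      · rintro _ ⟨x, hx, rfl⟩
        obtain ⟨i, hi⟩ := hX hx
        exact ⟨i, congrArg u hi⟩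

end GFC
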