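import Pool.Agent.CTQ.FG
import Pool.Agent.VB.B

/-!
# The guarded fragment with counting: definitions (helper22)

Formulas: `CTQ.FG L V` (Pool/Agent/CTQ/FG.lean). `F : ℕ → FG L V` is a family of formulas which is closed
under immediate subformulas and under changing the number `m` in `ge m I ψ` (`Cl F`).

* `Wt S I ψ v`: the witnesses of `ge m I ψ` at `v`.
* `Core F S`: the closure of the empty set under finite sets of witnesses, an increasing union of
  finite sets `FJ F S j`.
* `Good F S S' f g`: `f : A → M`, `g : A → N` are injective, preserve relations and the truth of all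
  `F k`, and their ranges are closed under finite sets of witnesses.
* `Chart`: a good structure, a part of which (a union of components over the base) is a part of `T`.
* `Pc F S₀`: pieces (components over the core), `asmG P`: the structure with the pieces `P`.
-/

set_option autoImplicit false

namespace GFC

open FirstOrder Set Pool.Agent.Helper6.Str Pool.Agent.Helper5.Multi
open CTQ (FG Vr ModG)

variable {L : FirstOrder.Language.{0, 0}} {V M N : Type}

/-! ### Formulas and witnesses -/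

/-- The witnesses of `ge m I ψ` at `v`. -/
def Wt (S : L.Structure M) (I : Finset V) (ψ : FG L V) (v : V → M) : Set (V → M) :=
  {u | (∀ j, j ∉ I → u j = v j) ∧ ψ.Sat S u}

theorem sat_ge_iff (S : L.Structure M) (m : ℕ) (I : Finset V) (ψ : FG L V) (v : V → M) :
    (FG.ge m I ψ).Sat S v ↔ (m : ℕ∞) ≤ (Wt S I ψ v).encard := Iff.rfl

theorem fv_ge (m : ℕ) (I : Finset V) (ψ : FG L V) : (FG.ge m I ψ).fv = ψ.fv \ (I : Set V) := rfl

/-- `A` is contained in a point or in the set of the entries of a true atomic formula. -/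
def GSet (S : L.Structure M) (A : Set M) : Prop :=
  A.Subsingleton ∨ ∃ (n : ℕ) (R : L.Relations n) (x : Fin n → M), S.RelMap R x ∧ A ⊆ range x

/-- Immediate subformulas, and the change of the number in a quantifier. -/
inductive Sub : FG L V → FG L V → Prop
  | neg (φ : FG L V) : Sub φ (.neg φ)
  | conj (φ : ℕ → FG L V) (m : ℕ) : Sub (φ m) (.conj φ)
  | ge (m : ℕ) (I : Finset V) (φ : FG L V) : Sub φ (.ge m I φ)
  | num (m m' : ℕ) (I : Finset V) (φ : FG L V) : Sub (.ge m' I φ) (.ge m I φ)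

/-- Closed families of guarded formulas. -/
structure Cl (F : ℕ → FG L V) : Prop where
  sub : ∀ k ψ, Sub ψ (F k) → ∃ k', F k' = ψ
  fin : ∀ k, (F k).fv.Finite
  grd : ∀ k m I ψ, F k = .ge m I ψ → ∀ (M : Type) (S : L.Structure M) (u : V → M), ψ.Sat S u →
    GSet S (u '' (ψ.fv ∪ (I : Set V)))

/-! ### The core -/

/-- The stages of the core. -/
def FJ (F : ℕ → FG L V) (S : L.Structure M) : ℕ → Set M
  | 0 => ∅
  | j + 1 => FJ F S j ∪ {a | ∃ k, k ≤ j ∧ ∃ (m : ℕ) (I : Finset V) (ψ : FG L V), F k = .ge m I ψ ∧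
      ∃ u : V → M, (∀ l ∈ ψ.fv, l ∉ I → u l ∈ FJ F S j) ∧ ψ.Sat S u ∧ (Wt S I ψ u).Finite ∧
        ∃ i ∈ I, u i = a}

/-- The core. -/
def Core (F : ℕ → FG L V) (S : L.Structure M) : Set M := {a | ∃ j, a ∈ FJ F S j}

/-- `A` is closed under finite sets of witnesses. -/
def WCl (F : ℕ → FG L V) (S : L.Structure M) (A : Set M) : Prop :=
  ∀ k m I ψ, F k = .ge m I ψ → ∀ u : V → M, (∀ l ∈ ψ.fv, l ∉ I → u l ∈ A) → ψ.Sat S u →
    (Wt S I ψ u).Finite → ∀ i ∈ I, u i ∈ A

/-- `f : A → M` and `g : A → N` identify parts of `S` and `S'`. -/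
structure Good (F : ℕ → FG L V) (S : L.Structure M) (S' : L.Structure N) {A : Type} (f : A → M)
    (g : A → N) : Prop where
  injf : Function.Injective f
  injg : Function.Injective g
  rel : ∀ (n : ℕ) (R : L.Relations n) (x : Fin n → A), S.RelMap R (f ∘ x) ↔ S'.RelMap R (g ∘ x)
  agr : ∀ (k : ℕ) (v : V → M) (v' : V → N), (∀ l ∈ (F k).fv, ∃ a, v l = f a ∧ v' l = g a) →
    ((F k).Sat S v ↔ (F k).Sat S' v')
  wf : WCl F S (range f)
  wg : WCl F S' (range g)

/-! ### Gluing -/

/-- A structure `S`, good over the base, with a part `X` which is also a part of `T`; the part is a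
union of components over the base. -/
structure Chart (F : ℕ → FG L V) {M₀ A : Type} (S₀ : L.Structure M₀) (f₀ : A → M₀)
    (T : L.Structure N) (g : A → N) : Type 1 where
  M : Type
  S : L.Structure M
  ne : Nonempty M
  f : A → M
  good : Good F S₀ S f₀ f
  X : Type
  κ : X → M
  κi : Function.Injective κ
  lam : X → N
  lami : Function.Injective lam
  b : A → X
  κb : ∀ a, κ (b a) = f a
  lamb : ∀ a, lam (b a) = g a
  rel : ∀ (n : ℕ) (R : L.Relations n) (x : Fin n → X), S.RelMap R (κ ∘ x) ↔ T.RelMap R (lam ∘ x)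
  cmp : ∀ (n : ℕ) (R : L.Relations n) (y : Fin n → M), S.RelMap R y → ∀ (x : X) (i : Fin n),
    y i = κ x → x ∉ range b → ∀ i', y i' ∈ range κ

/-- The charts cover `T`, one of them is full, and two charts meet only in the base. -/
structure Glu {F : ℕ → FG L V} {M₀ A : Type} {S₀ : L.Structure M₀} {f₀ : A → M₀}
    {T : L.Structure N} {g : A → N} {C : Type} (ch : C → Chart F S₀ f₀ T g) (c0 : C) : Prop where
  full : Function.Surjective (ch c0).κ
  cov : ∀ y : N, ∃ c, y ∈ range (ch c).lam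
  covR : ∀ (n : ℕ) (R : L.Relations n) (y : Fin n → N), T.RelMap R y →
    ∃ c, ∀ i, y i ∈ range (ch c).lam
  dis : ∀ c c' (x : (ch c).X) (x' : (ch c').X), c ≠ c' → (ch c).lam x = (ch c').lam x' →
    x ∈ range (ch c).b

/-- The truth of `ψ` is the same in all charts and in `T`. -/
def Tru {F : ℕ → FG L V} {M₀ A : Type} {S₀ : L.Structure M₀} {f₀ : A → M₀}
    {T : L.Structure N} {g : A → N} {C : Type} (ch : C → Chart F S₀ f₀ T g) (ψ : FG L V) : Prop :=
  ∀ (c : C) (v : V → N) (w : V → (ch c).M),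
    (∀ l ∈ ψ.fv, ∃ x, v l = (ch c).lam x ∧ w l = (ch c).κ x) → (ψ.Sat T v ↔ ψ.Sat (ch c).S w)

/-! ### Pieces -/

/-- `a` and `b` are outside `B` and entries of the same true atomic formula. -/
def Lk (T : L.Structure N) (B : Set N) (a b : N) : Prop :=
  a ∉ B ∧ b ∉ B ∧ ∃ (n : ℕ) (R : L.Relations n) (x : Fin n → N),
    T.RelMap R x ∧ a ∈ range x ∧ b ∈ range x

/-- The structure `str` on the core of `S₀` and `el` is the core and one component of a good
structure `S`. -/
structure IsPc (F : ℕ → FG L V) (S₀ : L.Structure ℕ) (el : Set ℕ)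
    (str : L.Structure (Core F S₀ ⊕ el)) (S : L.Structure ℕ) (κ : Core F S₀ ⊕ el → ℕ) : Prop where
  ne : el.Nonempty
  conn : ∀ x y : el, Relation.ReflTransGen (Lk str (range Sum.inl)) (Sum.inr x) (Sum.inr y)
  inj : Function.Injective κ
  good : Good F S₀ S (Subtype.val : Core F S₀ → ℕ) (fun a => κ (Sum.inl a))
  rel : ∀ (n : ℕ) (R : L.Relations n) (x : Fin n → Core F S₀ ⊕ el),
    str.RelMap R x ↔ S.RelMap R (κ ∘ x)
  cmp : ∀ (n : ℕ) (R : L.Relations n) (y : Fin n → ℕ), S.RelMap R y → ∀ (x : el) (i : Fin n),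
    y i = κ (Sum.inr x) → ∀ i', y i' ∈ range κ

/-- Pieces. -/
structure Pc (F : ℕ → FG L V) (S₀ : L.Structure ℕ) : Type where
  el : Set ℕ
  str : L.Structure (Core F S₀ ⊕ el)
  isp : ∃ (S : L.Structure ℕ) (κ : Core F S₀ ⊕ el → ℕ), IsPc F S₀ el str S κ

/-- The map of a piece which is the identity on the core. -/
def sm {F : ℕ → FG L V} {S₀ : L.Structure ℕ} {el el' : Set ℕ} (e : el ≃ el') :
    (Core F S₀ ⊕ el) ≃ (Core F S₀ ⊕ el') := Equiv.sumCongr (Equiv.refl _) e

/-- Isomorphism of pieces over the core. -/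
def PI {F : ℕ → FG L V} {S₀ : L.Structure ℕ} (p q : Pc F S₀) : Prop :=
  ∃ e : p.el ≃ q.el, RelIso p.str q.str (sm e)

section asm

variable {F : ℕ → FG L V} {S₀ : L.Structure ℕ} {I I' : Type}

/-- The inclusion of a piece. -/
def inc (P : I → Pc F S₀) (i : I) : Core F S₀ ⊕ (P i).el → Pos (Core F S₀) Pc.el P
  | .inl a => .inl a
  | .inr x => .inr ⟨(i, x.1), x.2⟩

/-- The structure with the pieces `P`. -/
@[instance_reducible]
def asmG [∀ n, IsEmpty (L.Functions n)] (P : I → Pc F S₀) :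
    L.Structure (Pos (Core F S₀) Pc.el P) where
  funMap := fun {n} f => (isEmptyElim f : (Fin n → _) → _)
  RelMap := fun {n} R x =>
    (∃ y : Fin n → Core F S₀, x = Sum.inl ∘ y ∧ S₀.RelMap R (fun i => (y i).1)) ∨
      ∃ i, ∃ y : Fin n → Core F S₀ ⊕ (P i).el, x = inc P i ∘ y ∧ (P i).str.RelMap R y

/-- Admissible families of pieces. -/
def MdG [∀ n, IsEmpty (L.Functions n)] (P : I → Pc F S₀) : Prop :=
  Infinite (Pos (Core F S₀) Pc.el P) ∧
    Good F S₀ (asmG P) (Subtype.val : Core F S₀ → ℕ) (Sum.inl : Core F S₀ → Pos (Core F S₀) Pc.el P)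

end asm

/-- The structures with the core of `S₀`. -/
def KG (F : ℕ → FG L V) (S₀ : L.Structure ℕ) : Set (L.Structure ℕ) :=
  {S | ∃ g : Core F S₀ → ℕ, Good F S₀ S (Subtype.val : Core F S₀ → ℕ) g}

/-! ### Finite approximations of the core -/

/-- Literals for a tuple of length `N`: truth of `F k`, relations, membership in a stage. -/
abbrev Lit (F : ℕ → FG L V) (N : ℕ) : Type :=
  (((k : ℕ) × ((F k).fv → Fin N)) ⊕ (((n : ℕ) × (L.Relations n × (Fin n → Fin N))) ⊕
    (ℕ × Fin N))) × Bool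

/-- The truth of a literal (without the sign). -/
def LitT (F : ℕ → FG L V) {N : ℕ} (S : L.Structure M) (x : Fin N → M) :
    ((k : ℕ) × ((F k).fv → Fin N)) ⊕ (((n : ℕ) × (L.Relations n × (Fin n → Fin N))) ⊕
    (ℕ × Fin N)) → Prop
  | .inl ⟨k, p⟩ => ∃ v : V → M, (∀ l : (F k).fv, v l.1 = x (p l)) ∧ (F k).Sat S v
  | .inr (.inl ⟨_, (R, q)⟩) => S.RelMap R (x ∘ q)
  | .inr (.inr (i, a)) => x a ∈ FJ F S i

/-- The truth of a literal. -/
def LitS (F : ℕ → FG L V) {N : ℕ} (S : L.Structure M) (x : Fin N → M) (t : Lit F N) : Prop :=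
  LitT F S x t.1 ↔ t.2 = true

/-- The stage `j` has an enumeration with the literals `s`. -/
def Ex (F : ℕ → FG L V) (S : L.Structure M) (j N : ℕ) (s : Finset (Lit F N)) : Prop :=
  ∃ x : Fin N → M, Function.Injective x ∧ range x = FJ F S j ∧ ∀ t ∈ s, LitS F S x t

/-- `e` preserves everything on the stage `j`. -/
structure SP (F : ℕ → FG L V) (S : L.Structure M) (S' : L.Structure N) (j : ℕ)
    (e : FJ F S j ≃ FJ F S' j) : Prop where
  mem : ∀ i x, (e x).1 ∈ FJ F S' i ↔ x.1 ∈ FJ F S i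
  rel : ∀ (n : ℕ) (R : L.Relations n) (x : Fin n → FJ F S j),
    S.RelMap R (fun i => (x i).1) ↔ S'.RelMap R (fun i => (e (x i)).1)
  agr : ∀ (k : ℕ) (v : V → M) (v' : V → N), (∀ l ∈ (F k).fv, ∃ x, v l = x.1 ∧ v' l = (e x).1) →
    ((F k).Sat S v ↔ (F k).Sat S' v')

end GFC
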