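import Pool.Agent.GFC.St

/-!
# GFC, adding pieces (helper71)
-/

set_option autoImplicit false

namespace GFC

open FirstOrder Set Pool.Agent.Helper6.Str Pool.Agent.Helper5.Multi
open CTQ (FG Vr ModG)

section

variable {L : FirstOrder.Language.{0, 0}} [∀ n, IsEmpty (L.Functions n)] {V : Type}
  {F : ℕ → FG L V} {S₀ : L.Structure ℕ} {I I' : Type} {P : I → Pc F S₀} {P' : I' → Pc F S₀}
  {j : I → I'}

/-- The chart of the subfamily. -/
private def MON_c0 (hEMB : St_EMB) (hj : ∀ i, P' (j i) = P i) (hinj : Function.Injective j)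
    (hP : MdG P) : Chart F S₀ (Subtype.val : Core F S₀ → ℕ) (asmG P')
      (Sum.inl : Core F S₀ → Pos (Core F S₀) Pc.el P') where
  M := Pos (Core F S₀) Pc.el P
  S := asmG P
  ne := hP.1.nonempty
  f := Sum.inl
  good := hP.2
  X := Pos (Core F S₀) Pc.el P
  κ := id
  κi := Function.injective_id
  lam := posMap j hj
  lami := posMap_injective j hj hinj
  b := Sum.inl
  κb := fun _ => rfl
  lamb := fun _ => rfl
  rel := fun n R x => hEMB L V F S₀ I I' P P' j hj hinj n R x
  cmp := fun _ _ y _ _ _ _ _ i' => ⟨y i', rfl⟩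

/-- The chart of a piece. -/
private def MON_c1 (hRES : St_RES) (i' : I') (S : L.Structure ℕ)
    (κ : Core F S₀ ⊕ (P' i').el → ℕ) (h : IsPc F S₀ (P' i').el (P' i').str S κ) :
    Chart F S₀ (Subtype.val : Core F S₀ → ℕ) (asmG P')
      (Sum.inl : Core F S₀ → Pos (Core F S₀) Pc.el P') where
  M := ℕ
  S := S
  ne := ⟨0⟩
  f := fun a => κ (Sum.inl a)
  good := h.good
  X := Core F S₀ ⊕ (P' i').el
  κ := κ
  κi := h.inj
  lam := inc P' i'
  lami := (hRES L V F S₀ I' P').2.2 i'
  b := Sum.inl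
  κb := fun _ => rfl
  lamb := fun _ => rfl
  rel := fun n R x => (h.rel n R x).symm.trans ((hRES L V F S₀ I' P').1 i' n R x).symm
  cmp := fun n R y hR x i hi hx => by
    rcases x with a | x
    · exact absurd ⟨a, rfl⟩ hx
    · exact h.cmp n R y hR x i hi

/-- The index of a position. -/
private def MON_ix : Pos (Core F S₀) Pc.el P' → Option I'
  | .inl _ => none
  | .inr p => some p.1.1

omit [∀ n, IsEmpty (L.Functions n)] in
private theorem MON_inc (hj : ∀ i, P' (j i) = P i) (i : I) (a : Core F S₀ ⊕ (P' (j i)).el) :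
    inc P' (j i) a ∈ range (posMap (P := P) j hj) := by
  rcases a with a | ⟨x, hx⟩
  · exact ⟨.inl a, rfl⟩
  · refine ⟨.inr ⟨(i, x), ?_⟩, rfl⟩
    show x ∈ (P i).el
    rw [← hj i]
    exact hx

end

/-- Adding pieces. -/
theorem thm_MON (hGLU : St_GLU) (hEMB : St_EMB) (hRES : St_RES) : St_MON := by
  classical
  intro L _ V F S₀ I I' P P' j hF hinj hj hP
  choose S κ h using fun i' => (P' i').isp
  let ch : Option {i' // i' ∉ range j} → Chart F S₀ (Subtype.val : Core F S₀ → ℕ) (asmG P')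
      (Sum.inl : Core F S₀ → Pos (Core F S₀) Pc.el P') := fun c =>
    match c with
    | none => MON_c0 hEMB hj hinj hP
    | some i' => MON_c1 hRES i'.1 (S i'.1) (κ i'.1) (h i'.1)
  have hi := hP.1
  refine ⟨Infinite.of_injective _ (posMap_injective (F := Core F S₀) (el := Pc.el) j hj hinj),
    hGLU L V ℕ (Core F S₀) _ _ F S₀ Subtype.val (asmG P') Sum.inl ch none hF ⟨0⟩
    ⟨?_, ?_, ?_, ?_⟩⟩
  · exact fun y => ⟨y, rfl⟩
  · rintro (a | ⟨⟨i', x⟩, hx⟩)
    · exact ⟨none, .inl a, rfl⟩
    · by_cases hi' : i' ∈ range j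
      · obtain ⟨i, rfl⟩ := hi'
        exact ⟨none, MON_inc hj i (.inr ⟨x, hx⟩)⟩
      · exact ⟨some ⟨i', hi'⟩, .inr ⟨x, hx⟩, rfl⟩
  · rintro n R y (⟨z, rfl, _⟩ | ⟨i', z, rfl, _⟩)
    · exact ⟨none, fun k => ⟨.inl (z k), rfl⟩⟩
    · by_cases hi' : i' ∈ range j
      · obtain ⟨i, rfl⟩ := hi'
        exact ⟨none, fun k => MON_inc hj i (z k)⟩
      · exact ⟨some ⟨i', hi'⟩, fun k => ⟨z k, rfl⟩⟩
  · rintro (_ | i') (_ | i'') x x' hne hx
    · exact absurd rfl hne
    · rcases x with a | p
      · exact ⟨a, rfl⟩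
      · exfalso
        rcases x' with a' | q
        · exact absurd (congrArg MON_ix hx) (Option.some_ne_none _)
        · exact i''.2 ⟨p.1.1, Option.some_injective _ (congrArg MON_ix hx)⟩
    · rcases x with a | q
      · exact ⟨a, rfl⟩
      · exfalso
        rcases x' with a' | p
        · exact absurd (congrArg MON_ix hx) (Option.some_ne_none _)
        · exact i'.2 ⟨p.1.1, (Option.some_injective _ (congrArg MON_ix hx)).symm⟩
    · rcases x with a | q
      · exact ⟨a, rfl⟩
      · exfalso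
        rcases x' with a' | p
        · exact absurd (congrArg MON_ix hx) (Option.some_ne_none _)
        · exact hne (congrArg some (Subtype.ext
            (Option.some_injective _ (congrArg MON_ix hx))))

end GFC
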