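import Pool.Agent.GFC.Defs

/-!
# GFC, statements (helper22)

Every `def St_XYZ : Prop` is proved in the module `Pool/Agent/GFC/XYZ.lean`, theorem `GFC.thm_XYZ`, with
the hypotheses named in the docstring (in the order given), e.g.
`theorem thm_WIB (hPAR : St_PAR) (hNUM : St_NUM) : St_WIB`.
Auxiliary lemmas: `private`. Basic facts in `Pool/Agent/CTQ/FG.lean`: `FG.sat_congr` (truth depends only
on the values of the free variables), `FG.sat_of_closed`, `FG.sat_inv` (isomorphisms).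
-/

set_option autoImplicit false
set_option linter.unusedVariables false

namespace GFC

open FirstOrder Set Pool.Agent.Helper6.Str Pool.Agent.Helper5.Multi
open CTQ (FG Vr ModG)

/-- [CLF] (0.8 h; no other module) The closed family of a sentence.

Proof. Define `cl : FG L V → Set (FG L V)` by recursion: `cl (eq i j) = {eq i j}`, `cl (rel R w) =
{rel R w}`, `cl (neg φ) = insert (neg φ) (cl φ)`, `cl (conj f) = insert (conj f) (⋃ m, cl (f m))`,
`cl (ge m I φ) = range (fun m' => ge m' I φ) ∪ cl φ`. By induction: `φ ∈ cl φ`, `cl φ` is countable and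
closed under `Sub` (`ψ' ∈ cl φ`, `Sub ψ ψ'` imply `ψ ∈ cl φ`), and if `φ.fv.Finite` and `Gd 1 φ`, then
all `ψ ∈ cl φ` have `ψ.fv.Finite` and `Gd 1 ψ` (`conj`: the free variables of `f m` are among those of
`conj f`; `ge m I φ`: `φ.fv ⊆ (φ.fv \ I) ∪ I`). Let `range f = cl φ`, `F 0 = φ`, `F (n + 1) = f n`. `grd`: for
`F k = ge m I ψ` with `Gd 1`: if `(ψ.fv ∪ I).encard ≤ 1`, the image is a subsingleton; if
`ψ = conj f`, `f j = rel R w`, `ψ.fv ∪ I ⊆ range w`, then `S.RelMap R (u ∘ w)` and the image is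
contained in `range (u ∘ w)`. -/
def St_CLF : Prop := ∀ (L : FirstOrder.Language.{0, 0}) (V : Type) (φ : FG L V), φ.fv = ∅ →
  FG.Gd 1 φ → ∃ F : ℕ → FG L V, F 0 = φ ∧ Cl F

/-- [FIN] (1 h; no other module) The stages are finite and increasing, the core is closed.

Proof. Finite: induction on `j`. `FJ (j + 1)` is `FJ j` and the union over the finitely many `k ≤ j` of the
sets for `F k = ge m I ψ` (`m`, `I`, `ψ` are determined by `k`). Let `Y = {l ∈ ψ.fv | l ∉ I} = (F k).fv`,
finite. For every map `r : Y → FJ j` for which there is one, choose `u_r : V → M` with `u_r = r` on `Y`,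
`ψ.Sat S u_r` and `(Wt S I ψ u_r).Finite`. If `u` is as in the definition of `FJ (j + 1)` with
restriction `r` to `Y`, let `u'` be `u` on `I` and `u_r` off `I`: `u' = u` on `ψ.fv`, so
`u' ∈ Wt S I ψ u_r` (`FG.sat_congr`) and `u i = u' i`. So the set is contained in
`⋃ r, ⋃ i ∈ I, (fun w => w i) '' Wt S I ψ u_r`, a finite union of finite sets. Closed: given `k` and `u` with
`u l ∈ Core` for `l ∈ Y`; `Y` is finite, so there is `j ≥ k` with `u l ∈ FJ j` for all `l ∈ Y`, and
`u i ∈ FJ (j + 1)`. -/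
def St_FIN : Prop := ∀ (L : FirstOrder.Language.{0, 0}) (V M : Type) (F : ℕ → FG L V)
  (S : L.Structure M), Cl F → (∀ j, (FJ F S j).Finite) ∧ (∀ i j, i ≤ j → FJ F S i ⊆ FJ F S j) ∧
    WCl F S (Core F S)

/-- [NUM] (0.3 h; no other module) The same number of witnesses.

Proof. `ENat.eq_of_forall_natCast_le_iff`: for every `m'` the formula `ge m' I ψ` is some `F k'`
(`Cl.sub`, `Sub.num`), its free variables are `ψ.fv \ I`; `Good.agr`. -/
def St_NUM : Prop := ∀ (L : FirstOrder.Language.{0, 0}) (V M N A : Type) (F : ℕ → FG L V)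
  (S : L.Structure M) (S' : L.Structure N) (f : A → M) (g : A → N), Cl F → Good F S S' f g →
  ∀ k m I ψ, F k = .ge m I ψ → ∀ (v : V → M) (v' : V → N),
    (∀ l ∈ ψ.fv, l ∉ I → ∃ a, v l = f a ∧ v' l = g a) →
    (Wt S I ψ v).encard = (Wt S' I ψ v').encard

/-- [FJE] (1 h; uses `St_NUM`) The stages correspond.

Proof. `Good` is symmetric. First `FJ F S j ⊆ range f` by induction on `j` (`wf`). Claim:
`f a ∈ FJ F S j → g a ∈ FJ F S' j` (the converse by symmetry). Step: let `k ≤ j`, `F k = ge m I ψ`,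
`u l ∈ FJ F S j` for `l ∈ ψ.fv`, `l ∉ I`, `ψ.Sat S u`, finitely many witnesses, `i ∈ I`, `u i = f a`. For every
`l ∈ ψ.fv ∪ I` there is `c l : A` with `u l = f (c l)` (first part; `wf` for `l ∈ I`). Let `u' l = g (c l)` for
these `l` and `u' l = g a` otherwise. Then `ψ.Sat S' u'` (`Good.agr`; `ψ` is some `F k'`),
`(Wt S' I ψ u').Finite` (`St_NUM`), `u' l ∈ FJ F S' j` for `l ∈ ψ.fv`, `l ∉ I` (induction hypothesis), and
`u' i = g (c i)` with `f (c i) = u i = f a`, so `c i = a`. Last part: `Core F S' ⊆ range g`, and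
`f a ∈ Core F S` for all `a` gives `g a ∈ Core F S'`. -/
def St_FJE : Prop := ∀ (L : FirstOrder.Language.{0, 0}) (V M N A : Type) (F : ℕ → FG L V)
  (S : L.Structure M) (S' : L.Structure N) (f : A → M) (g : A → N), Cl F → Good F S S' f g →
  (∀ j, FJ F S j ⊆ range f) ∧ (∀ j, FJ F S' j ⊆ range g) ∧
    (∀ j a, f a ∈ FJ F S j ↔ g a ∈ FJ F S' j) ∧ (Core F S = range f → Core F S' = range g)

/-- [GIS] (0.6 h; no other module) Isomorphisms.

Proof. `agr`: `FG.sat_inv` (for `v' : V → N'` use `e.symm ∘ v'`). `wg`: for `u : V → N'` use `e.symm ∘ u`;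
`w ↦ e ∘ w` is an injective map from `Wt T I ψ (e.symm ∘ u)` to `Wt T' I ψ u`, so the first set is
finite. -/
def St_GIS : Prop := ∀ (L : FirstOrder.Language.{0, 0}) (V M N N' A : Type) (F : ℕ → FG L V)
  (S : L.Structure M) (T : L.Structure N) (T' : L.Structure N') (f : A → M) (g : A → N)
  (e : N ≃ N'), RelIso T T' e → Good F S T f g → Good F S T' f (e ∘ g)

/-- [PAR] (0.3 h; no other module) Comparison of witness sets.

Proof. Choose `u'` for every `u`; `Set.encard_le_encard_of_injOn`: if `u₁` and `u₂` have the same `u'`,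
then for `i ∈ I`: `u₁ i = lam x₁`, `u₂ i = lam x₂`, `κ x₁ = u' i = κ x₂`, so `x₁ = x₂`; off `I` both
are `v`. -/
def St_PAR : Prop := ∀ (L : FirstOrder.Language.{0, 0}) (V M N X : Type) (S : L.Structure M)
  (T : L.Structure N) (I : Finset V) (ψ : FG L V) (v : V → N) (w : V → M) (lam : X → N) (κ : X → M),
  Function.Injective κ →
  (∀ u ∈ Wt T I ψ v, ∃ u' ∈ Wt S I ψ w, ∀ i ∈ I, ∃ x, u i = lam x ∧ u' i = κ x) →
  (Wt T I ψ v).encard ≤ (Wt S I ψ w).encard

/-- [WIA] (1 h; uses `St_PAR`) The number of witnesses, some value outside the base.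

Proof. Let `v l₀ = lam x₀`, `w l₀ = κ x₀` (`x₀ ∉ range b` because `lam (b a) = g a`). (≤) Let
`u ∈ Wt T I ψ v`. `Cl.grd` gives `GSet T (u '' (ψ.fv ∪ I))`, and `u l₀ = v l₀ = lam x₀` is in this set. So
`u l ∈ range lam` for all `l ∈ ψ.fv ∪ I`: clear for a subsingleton; for a true atomic formula with the
entries `y`: by `covR` all `y i` are in `range (ch c').lam`; `lam x₀` is one of them, so `c' = c` by
`dis`. Let `u' i = κ x` for `i ∈ I`, `u i = lam x`, and `u' = w` off `I`. `Tru` for `c`, `u`, `u'` (for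
`l ∈ ψ.fv`, `l ∉ I` use the hypothesis on `v`, `w`) gives `u' ∈ Wt (ch c).S I ψ w`; `St_PAR`. (≥) Let
`u' ∈ Wt (ch c).S I ψ w`: `GSet (ch c).S (u' '' (ψ.fv ∪ I))` contains `κ x₀`, so by `Chart.cmp` all
`u' l` are in `range κ`, `u' i = κ x`, `u i := lam x` for `i ∈ I`, `u = v` off `I`; `Tru`; `St_PAR` with
the roles exchanged. -/
def St_WIA : Prop := ∀ (L : FirstOrder.Language.{0, 0}) (V M₀ A N C : Type) (F : ℕ → FG L V)
  (S₀ : L.Structure M₀) (f₀ : A → M₀) (T : L.Structure N) (g : A → N)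
  (ch : C → Chart F S₀ f₀ T g) (c0 : C), Cl F → Glu ch c0 →
  ∀ k m I ψ, F k = .ge m I ψ → Tru ch ψ → ∀ (c : C) (v : V → N) (w : V → (ch c).M),
    (∀ l ∈ ψ.fv, l ∉ I → ∃ x, v l = (ch c).lam x ∧ w l = (ch c).κ x) →
    ∀ l₀ ∈ ψ.fv, l₀ ∉ I → v l₀ ∉ range g →
    (Wt T I ψ v).encard = (Wt (ch c).S I ψ w).encard

/-- [WIB] (1.5 h; uses `St_PAR`, `St_NUM`) The number of witnesses, all values in the base.

Proof. For `l ∈ ψ.fv`, `l ∉ I`: `v l = g (a l)`; since `lam (b (a l)) = g (a l)`, also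
`w l = κ (b (a l)) = (ch c).f (a l)`. For every chart `c'` let `w_{c'} l = (ch c').f (a l)` for these `l`
(an arbitrary element otherwise, `Chart.ne`), `w_c = w`. The numbers of witnesses
`(Wt (ch c').S I ψ w_{c'}).encard` are all equal (`St_NUM` for `(ch c').good`: all are equal to the
number in `S₀` for the assignment `l ↦ f₀ (a l)`); call it `W`.
(A) `W` finite. If `u ∈ Wt T I ψ v`, then by `Cl.grd`, `cov`, `covR` there is `c'` with
`u l ∈ range (ch c').lam` for all `l ∈ ψ.fv ∪ I` (empty set: `c0`). Let `u' i = κ x` for `i ∈ I`,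
`u i = lam x`, and `u' = w_{c'}` off `I`: `Tru` gives `u' ∈ Wt (ch c').S I ψ w_{c'}` (`v l = lam (b (a l))`,
`w_{c'} l = κ (b (a l))` for `l ∈ ψ.fv`, `l ∉ I`), and `(ch c').good.wg` gives `u' i ∈ range (ch c').f` (the
set `Wt (ch c').S I ψ u'` is equal to `Wt (ch c').S I ψ w_{c'}`), so `x ∈ range b` and
`u i ∈ range g`. This is the second part. Hence, with `u i = g (a' i)`, `u' i := (ch c).f (a' i)`, `Tru`
for `c` and `St_PAR` give (≤) (`X := (ch c).X`, `x = b (a' i)`); (≥): for `u' ∈ Wt (ch c).S I ψ w`,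
`u' i ∈ range (ch c).f` (`good.wg`), `u i := g (a' i)`, `Tru` for `c`, `St_PAR`.
(B) `W = ⊤`. `(ch c0).κ` is surjective, so every `u' ∈ Wt (ch c0).S I ψ w_{c0}` gives `u ∈ Wt T I ψ v`,
`u i = lam x` for `u' i = κ x`, `i ∈ I` (`Tru` for `c0`), and `St_PAR` gives `⊤ ≤ (Wt T I ψ v).encard`. The
second part is void. -/
def St_WIB : Prop := ∀ (L : FirstOrder.Language.{0, 0}) (V M₀ A N C : Type) (F : ℕ → FG L V)
  (S₀ : L.Structure M₀) (f₀ : A → M₀) (T : L.Structure N) (g : A → N)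
  (ch : C → Chart F S₀ f₀ T g) (c0 : C), Cl F → Nonempty M₀ → Glu ch c0 →
  ∀ k m I ψ, F k = .ge m I ψ → Tru ch ψ → ∀ (c : C) (v : V → N) (w : V → (ch c).M),
    (∀ l ∈ ψ.fv, l ∉ I → ∃ x, v l = (ch c).lam x ∧ w l = (ch c).κ x) →
    (∀ l ∈ ψ.fv, l ∉ I → v l ∈ range g) →
    (Wt T I ψ v).encard = (Wt (ch c).S I ψ w).encard ∧
      ((Wt T I ψ v).Finite → ∀ u ∈ Wt T I ψ v, ∀ i ∈ I, u i ∈ range g)

/-- [TRG] (0.6 h; uses `St_WIA`, `St_WIB`) The truth lemma.

Proof. Induction on the formula `ψ`, for all `k` with `F k = ψ`. `eq`: `lam` and `κ` are injective. `rel`: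
choose `x i` with `v (w' i) = lam (x i)`, ...; `Chart.rel`. `neg`, `conj`: `Cl.sub`. `ge m I ψ`: `ψ` is some
`F k'`; if some `l₀ ∈ ψ.fv`, `l₀ ∉ I` has `v l₀ ∉ range g`: `St_WIA`, otherwise `St_WIB`. -/
def St_TRG : Prop := ∀ (L : FirstOrder.Language.{0, 0}) (V M₀ A N C : Type) (F : ℕ → FG L V)
  (S₀ : L.Structure M₀) (f₀ : A → M₀) (T : L.Structure N) (g : A → N)
  (ch : C → Chart F S₀ f₀ T g) (c0 : C), Cl F → Nonempty M₀ → Glu ch c0 → ∀ k, Tru ch (F k)

/-- [GLU] (0.7 h; uses `St_TRG`, `St_WIB`) Gluing.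

Proof. `injf`: from `(ch c0).good`. `injg`: `g = lam ∘ b` and `κ ∘ b = (ch c0).f` is injective. `rel`:
`S₀.RelMap R (f₀ ∘ x) ↔ (ch c0).S.RelMap R ((ch c0).f ∘ x) = (κ ∘ b ∘ x) ↔ T.RelMap R (lam ∘ b ∘ x)`.
`agr`: let `v l = f₀ (a l)`, `v' l = g (a l)` for `l ∈ (F k).fv`; put `w l = (ch c0).f (a l)` for these `l`;
`St_TRG` for `c0`, `v'`, `w` and `(ch c0).good.agr` for `v`, `w`. `wf`: `(ch c0).good.wf`. `wg`: let
`F k = ge m I ψ`, `u l ∈ range g` for `l ∈ ψ.fv`, `l ∉ I`, `ψ.Sat T u` and finitely many witnesses; `u` is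
itself in `Wt T I ψ u`; the second part of `St_WIB` with `c = c0`, `v = u`, `w l = (ch c0).f (a l)`. -/
def St_GLU : Prop := ∀ (L : FirstOrder.Language.{0, 0}) (V M₀ A N C : Type) (F : ℕ → FG L V)
  (S₀ : L.Structure M₀) (f₀ : A → M₀) (T : L.Structure N) (g : A → N)
  (ch : C → Chart F S₀ f₀ T g) (c0 : C), Cl F → Nonempty M₀ → Glu ch c0 → Good F S₀ T f₀ g

/-- [RES] (0.7 h; no other module) Relations in `asmG P`.

Proof. (c) clear. First: `(P i).str.RelMap R (inl ∘ z) ↔ S₀.RelMap R (fun k => (z k).1)` by `IsPc.rel` and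
`IsPc.good.rel`. (b): `→`: in the second case of the definition `Sum.inl ∘ y = inc P i ∘ y'`, so
`y' = Sum.inl ∘ y`; use the first remark. (a): `←` clear; `→`: first case: `inc P i ∘ y = Sum.inl ∘ z`, so
`y = Sum.inl ∘ z`. Second case: `inc P i ∘ y = inc P i' ∘ y'`: if some `y k` is `inr`, then `i' = i` and
`y' = y` by injectivity; otherwise `y = Sum.inl ∘ z` and `y' = Sum.inl ∘ z`, and both relations are
`S₀.RelMap R (fun k => (z k).1)`. -/
def St_RES : Prop := ∀ (L : FirstOrder.Language.{0, 0}) [∀ n, IsEmpty (L.Functions n)] (V : Type)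
  (F : ℕ → FG L V) (S₀ : L.Structure ℕ) (I : Type) (P : I → Pc F S₀),
  (∀ i n (R : L.Relations n) (y : Fin n → Core F S₀ ⊕ (P i).el),
    (asmG P).RelMap R (inc P i ∘ y) ↔ (P i).str.RelMap R y) ∧
  (∀ n (R : L.Relations n) (y : Fin n → Core F S₀),
    (asmG P).RelMap R (Sum.inl ∘ y) ↔ S₀.RelMap R (fun k => (y k).1)) ∧
  ∀ i, Function.Injective (inc P i)

/-- [EMB] (0.6 h; uses `St_RES`) Subfamilies of pieces.

Proof. We may assume `P = P' ∘ j` (`funext`, `subst`). Then `posMap j hj ∘ inc P i = inc P' (j i)` and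
`posMap j hj (inl a) = inl a`. `→`: the two cases of the definition. `←`: first case: `posMap ∘ v =
Sum.inl ∘ y`, so `v = Sum.inl ∘ y`. Second case: `posMap ∘ v = inc P' i' ∘ y`: if some `v k` is
`inr ⟨(i, x), _⟩`, then `i' = j i` and all other entries of `v` are `inl` or have the index `i`
(`j` injective), so `v = inc P i ∘ y`; otherwise `v = Sum.inl ∘ z`, `St_RES` (b) for `P'` and `P`. -/
def St_EMB : Prop := ∀ (L : FirstOrder.Language.{0, 0}) [∀ n, IsEmpty (L.Functions n)] (V : Type)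
  (F : ℕ → FG L V) (S₀ : L.Structure ℕ) (I I' : Type) (P : I → Pc F S₀) (P' : I' → Pc F S₀)
  (j : I → I') (hj : ∀ i, P' (j i) = P i), Function.Injective j →
  ∀ (n : ℕ) (R : L.Relations n) (v : Fin n → Pos (Core F S₀) Pc.el P),
    (asmG P).RelMap R v ↔ (asmG P').RelMap R (posMap j hj ∘ v)

/-- [CGR] (0.8 h; uses `St_RES`) Isomorphic families.

Proof. Choose `e i : (P i).el ≃ (P' (τ i)).el`; `e (inl a) = inl a`,
`e (inr ⟨(i, x), h⟩) = inr ⟨(τ i, e i ⟨x, h⟩), _⟩`, a bijection with `e ∘ inc P i =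
inc P' (τ i) ∘ sm (e i)`. Relations: the two cases of the definition for `asmG P`, and for `asmG P'` (`τ`
is surjective: `i' = τ i`), with `St_RES`. -/
def St_CGR : Prop := ∀ (L : FirstOrder.Language.{0, 0}) [∀ n, IsEmpty (L.Functions n)] (V : Type)
  (F : ℕ → FG L V) (S₀ : L.Structure ℕ) (I I' : Type) (P : I → Pc F S₀) (P' : I' → Pc F S₀)
  (τ : I ≃ I'), (∀ i, PI (P i) (P' (τ i))) →
  ∃ e : Pos (Core F S₀) Pc.el P ≃ Pos (Core F S₀) Pc.el P', RelIso (asmG P) (asmG P') e ∧
    ∀ a : Core F S₀, e (Sum.inl a) = Sum.inl a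

/-- [CON] (0.8 h; uses `St_RES`) The components of `asmG P` over the core.

Proof. `→`: if `Lk (asmG P) (range inl) (inr p) c`, then the atomic formula is of the form
`inc P i ∘ y` (in the first case of the definition `inr p` would be `inl`), so `c = inr q` with
`q.1.1 = i = p.1.1`; induction on the chain. `←`: `p = ((i, x), _)`, `q = ((i, y), _)`: `IsPc.conn` of the
piece `P i`, mapped by `inc P i` (`Relation.ReflTransGen.lift`, `St_RES` (a); `inc P i a ∈ range inl`
only if `a ∈ range inl`). -/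
def St_CON : Prop := ∀ (L : FirstOrder.Language.{0, 0}) [∀ n, IsEmpty (L.Functions n)] (V : Type)
  (F : ℕ → FG L V) (S₀ : L.Structure ℕ) (I : Type) (P : I → Pc F S₀)
  (p q : {p : I × ℕ // p.2 ∈ (P p.1).el}),
  Relation.ReflTransGen (Lk (asmG P) (range Sum.inl)) (Sum.inr p) (Sum.inr q) ↔ p.1.1 = q.1.1

/-- [DEA] (0.7 h; uses `St_RES`) Transport of isomorphisms of pieces.

Proof. Let `ε : (P i).el ≃ (P j).el` be the isomorphism (`RelIso` for `sm ε`). Take
`ε' = ei.symm.trans (ε.trans ej)`. For `x : Fin n → Core ⊕ (P' i').el` let `x₁ = (α.symm ⊕ ei.symm) ∘ x`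
(`Sum.map`). Then `e ∘ inc P i ∘ x₁ = inc P' i' ∘ x` and
`e ∘ inc P j ∘ (sm ε) ∘ x₁ = inc P' j' ∘ (sm ε') ∘ x` (on `inl a`: `α (α.symm a) = a`). So
`(P' i').str.RelMap R x ↔ (asmG P').RelMap R (inc P' i' ∘ x) ↔ (asmG P).RelMap R (inc P i ∘ x₁) ↔
(P i).str.RelMap R x₁ ↔ (P j).str.RelMap R (sm ε ∘ x₁) ↔ ... ↔ (P' j').str.RelMap R (sm ε' ∘ x)`. -/
def St_DEA : Prop := ∀ (L : FirstOrder.Language.{0, 0}) [∀ n, IsEmpty (L.Functions n)] (V : Type)
  (F : ℕ → FG L V) (S₀ : L.Structure ℕ) (I I' : Type) (P : I → Pc F S₀) (P' : I' → Pc F S₀)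
  (e : Pos (Core F S₀) Pc.el P ≃ Pos (Core F S₀) Pc.el P') (α : Core F S₀ ≃ Core F S₀)
  (i j : I) (i' j' : I') (ei : (P i).el ≃ (P' i').el) (ej : (P j).el ≃ (P' j').el),
  RelIso (asmG P) (asmG P') e → (∀ a, e (Sum.inl a) = Sum.inl (α a)) →
  (∀ x, e (inc P i (Sum.inr x)) = inc P' i' (Sum.inr (ei x))) →
  (∀ x, e (inc P j (Sum.inr x)) = inc P' j' (Sum.inr (ej x))) →
  PI (P i) (P j) → PI (P' i') (P' j')

/-- [DEC] (1.5 h; uses `St_FJE`, `St_GIS`, `St_CON`, `St_DEA`) The decomposition is unique.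

Proof. `MdG P'` and `St_FJE` (last part, `f = Subtype.val`, `range f = Core F S₀`) give
`Core F (asmG P') = range inl`. `St_GIS` for `e` and `MdG P` gives `Good F S₀ (asmG P') val (e ∘ inl)`, so
`Core F (asmG P') = range (e ∘ inl)`, too. Hence `e` maps `range inl` onto `range inl`, which gives
`α : Core ≃ Core` with `e (inl a) = inl (α a)`, and `e` maps the points `inr p` to points `inr p'`.
`e` maps chains of `Lk (asmG P) (range inl)` to chains of `Lk (asmG P') (range inl)` and conversely, so by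
`St_CON`: for `e (inr p) = inr p'`, `e (inr q) = inr q'`: `p.1.1 = q.1.1 ↔ p'.1.1 = q'.1.1`. Since all pieces
are nonempty (`IsPc.ne`) this gives a bijection `τ : I ≃ I'` with `p'.1.1 = τ p.1.1`, and bijections
`ei : (P i).el ≃ (P' (τ i)).el` with `e (inc P i (inr x)) = inc P' (τ i) (inr (ei x))`. `→`: `St_DEA`; `←`:
`St_DEA` for `e.symm`, `α.symm`, `ei.symm`, `ej.symm`. -/
def St_DEC : Prop := ∀ (L : FirstOrder.Language.{0, 0}) [∀ n, IsEmpty (L.Functions n)] (V : Type)
  (F : ℕ → FG L V) (S₀ : L.Structure ℕ) (I I' : Type) (P : I → Pc F S₀) (P' : I' → Pc F S₀),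
  Cl F → MdG P → MdG P' → Iso (asmG P) (asmG P') →
  ∃ τ : I ≃ I', ∀ i j, PI (P i) (P j) ↔ PI (P' (τ i)) (P' (τ j))

/-- [CPC] (1 h; no other module) The piece of a component.

Proof. `str` is the structure with `str.RelMap R x ↔ S.RelMap R (Sum.elim g Subtype.val ∘ x)`
(`funMap := fun f => isEmptyElim f`), `κ = Sum.elim g Subtype.val`. `Lk S B` is symmetric. All elements of
`el` are outside `B = range g` (`x₀ ∉ B`, and `Lk` leads outside `B`), so `κ` is injective. `cmp`: if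
`S.RelMap R y`, `y i = x ∈ el`, then every `y i'` is in `range g`, or `Lk S B (y i) (y i')` and `y i' ∈ el`.
`conn`: for a link `Lk S B x y`, `x ∈ el`, the atomic formula has all its entries in `range κ` (`cmp`), so
it comes from `str`, and `Lk str (range inl) (inr x) (inr y)`. So chains in `S` starting in `el` lift
to `str`; from `x` to `x₀` (symmetry) and from `x₀` to `y`. -/
def St_CPC : Prop := ∀ (L : FirstOrder.Language.{0, 0}) [∀ n, IsEmpty (L.Functions n)] (V : Type)
  (F : ℕ → FG L V) (S₀ S : L.Structure ℕ) (g : Core F S₀ → ℕ),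
  Good F S₀ S (Subtype.val : Core F S₀ → ℕ) g → ∀ (x₀ : ℕ), x₀ ∉ range g → ∀ el : Set ℕ,
  el = {x | Relation.ReflTransGen (Lk S (range g)) x₀ x} →
  ∃ str : L.Structure (Core F S₀ ⊕ el), IsPc F S₀ el str S (Sum.elim g Subtype.val)

/-- [REP] (1.2 h; uses `St_GIS`, `St_CPC`) Every structure is a family of pieces.

Proof. Let `g` be given, `B = range g`. On `{x // x ∉ B}` the relation `ReflTransGen (Lk S B)` is an
equivalence relation (`Lk` is symmetric); let `I` be the quotient (countable), `el i` the set of the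
`x ∉ B` with class `i` (`= {x | ReflTransGen (Lk S B) x₀ x}` for any representative `x₀`),
`P i = ⟨el i, str, _⟩` by `St_CPC`. The map `e : Pos → ℕ`, `inl a ↦ g a`, `inr ⟨(i, x), _⟩ ↦ x`, is
bijective and `e ∘ inc P i = Sum.elim g Subtype.val`. Relations: `(asmG P).RelMap R v → S.RelMap R (e ∘ v)`:
first case `good.rel`, second case `IsPc.rel`. Conversely, if `S.RelMap R (e ∘ v)`: if all `v k` are `inl`,
first case (`good.rel`); otherwise `v k = inr ⟨(i, x), _⟩`, and by `IsPc.cmp` all `e (v k')` are in `B` or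
`el i`, so `v = inc P i ∘ y`, second case (`IsPc.rel`). `MdG P`: infinite because `Pos ≃ ℕ`;
`Good F S₀ (asmG P) val inl` by `St_GIS` for `e.symm` (`e.symm ∘ g = inl`). -/
def St_REP : Prop := ∀ (L : FirstOrder.Language.{0, 0}) [∀ n, IsEmpty (L.Functions n)] (V : Type)
  (F : ℕ → FG L V) (S₀ : L.Structure ℕ), ∀ S ∈ KG F S₀,
  ∃ (I : Type) (_ : Countable I) (P : I → Pc F S₀), MdG P ∧ Iso (asmG P) S

/-- [MON] (1.2 h; uses `St_GLU`, `St_EMB`, `St_RES`) Adding pieces.

Proof. `T = asmG P'`, `g = inl`, `A = Core F S₀`. Charts, indexed by `Option {i' // i' ∉ range j}`: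
`none`: `M = X = Pos _ _ P`, `S = asmG P`, `f = b = inl`, `κ = id`, `lam = posMap j hj` (`posMap_injective`),
`rel` by `St_EMB`, `cmp` trivial; `some i'`: let `S`, `κ` be the structure and the map of
`(P' i').isp`, `M = ℕ`, `X = Core ⊕ (P' i').el`, `f = fun a => κ (inl a)`, `b = inl`, `lam = inc P' i'`, `rel` by
`IsPc.rel` and `St_RES` (a), `cmp`: `IsPc.cmp` (`x ∉ range inl` means `x = inr x'`). `full`: `κ = id`. `cov`: a
point `inr ⟨(i', x), _⟩` with `i' = j i` is in the range of `posMap` (`P' (j i) = P i`), otherwise in the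
chart `some i'`. `covR`: the two cases of the definition of `asmG P'`. `dis`: a point `inr ⟨(i', x), _⟩` of
`asmG P'` is in the range of `inc P' i''` only if `i' = i''`, in the range of `posMap` only if
`i' ∈ range j`. `St_GLU` (`M₀ = ℕ`). `Pos _ _ P'` is infinite because `posMap` is injective. -/
def St_MON : Prop := ∀ (L : FirstOrder.Language.{0, 0}) [∀ n, IsEmpty (L.Functions n)] (V : Type)
  (F : ℕ → FG L V) (S₀ : L.Structure ℕ) (I I' : Type) (P : I → Pc F S₀) (P' : I' → Pc F S₀)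
  (j : I → I'), Cl F → Function.Injective j → (∀ i, P' (j i) = P i) → MdG P → MdG P'

/-- [FRG] (0.8 h; uses `St_GIS`, `St_CGR`, `St_EMB`, `St_DEC`, `St_REP`, `St_MON`) The dichotomy for the structures
with a given core.

Proof. Build `fr : Frame (KG F S₀)` (Pool/Agent/VB/A.lean) and use `fr.dichotomy`. `Piece = Pc F S₀`, `r` = the
setoid of `PI` (reflexive, symmetric, transitive: `sm` of identity, inverse, composition), `F = Core F S₀`,
`el = Pc.el`, `asm = asmG`, `Md = MdG`. `md_congr`: `St_CGR` and `St_GIS` (`e ∘ inl = inl`; infinite by `e`).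
`congr`: `St_CGR`. `inf`: by definition. `emb`: `St_EMB`. `mem`: `St_GIS`. `rep`: `St_REP`. `mono`: `St_MON`.
`dec`: `St_DEC`. -/
def St_FRG : Prop := ∀ (L : FirstOrder.Language.{0, 0}) [∀ n, IsEmpty (L.Functions n)] (V : Type)
  (F : ℕ → FG L V) (S₀ : L.Structure ℕ), Cl F → CtblK (KG F S₀) ∨ PerfK (KG F S₀)

/-- [SMB] (0.5 h; no other module) Truth is a Borel property.

Proof. Induction on `φ` (compare `VPF/MEA.lean`). `ge m I φ`: the set of the witnesses at `v` has the same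
`encard` as `{z : I → ℕ | φ.Sat S (ext z)}`, `ext z i = z i` for `i ∈ I` and `v i` otherwise (`z ↦ ext z` is
a bijection); `I → ℕ` is countable: `CTQ.measurableSet_le_encard` (Pool/Agent/CTQ/BAS.lean), or directly. -/
def St_SMB : Prop := ∀ (L : FirstOrder.Language.{0, 0}) [∀ n, IsEmpty (L.Functions n)]
  [∀ n, Countable (L.Relations n)] (V : Type) (φ : FG L V) (v : V → ℕ),
  MeasurableSet {c : Code L | φ.Sat (toStr c) v} ∧
  ∀ (I : Finset V), MeasurableSet {c : Code L | (Wt (toStr c) I φ v).Finite}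

/-- [MEX] (1 h; uses `St_SMB`) Measurability of the approximations.

Proof. First: `{c | a ∈ FJ F (toStr c) j}` is measurable, induction on `j`. In the step the assignment `u`
matters only on the finite set `Z = ψ.fv ∪ I` (`FG.sat_congr`; `Wt S I ψ u` is finite iff `Wt S I ψ u'` is,
for `u = u'` on `ψ.fv`: `φ.Sat` for `φ = ge m' I ψ`, or a bijection), so `u` may be restricted to the
countably many functions which are `0` outside `Z`; a countable union of the measurable sets of `St_SMB`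
(for `F k = ge m I ψ`: `m`, `I`, `ψ` are determined by `k`). Second: `LitT`: for
`inl ⟨k, p⟩` it is the truth of `F k` at one assignment (`x (p l)` on the free variables, `0` elsewhere;
`FG.sat_congr`). `Ex`: countable union over `x : Fin N → ℕ`; `range x = FJ F S j` iff for all `a`:
`a ∈ range x ↔ a ∈ FJ F S j`. -/
def St_MEX : Prop := ∀ (L : FirstOrder.Language.{0, 0}) [∀ n, IsEmpty (L.Functions n)]
  [∀ n, Countable (L.Relations n)] (V : Type) (F : ℕ → FG L V), Cl F → ∀ (j N : ℕ)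
  (s : Finset (Lit F N)), MeasurableSet {c : Code L | Ex F (toStr c) j N s}

/-- [IVE] (0.6 h; no other module) Invariance of the approximations.

Proof. `FG.sat_inv`; `a ∈ FJ F S j ↔ e a ∈ FJ F S' j` by induction on `j` (`u ↦ e ∘ u`; `w ↦ e ∘ w` is a
bijection of `Wt S I ψ u` and `Wt S' I ψ (e ∘ u)`; one direction for all `S`, `S'`, `e` is enough). Use
`e ∘ x` for `x`. -/
def St_IVE : Prop := ∀ (L : FirstOrder.Language.{0, 0}) (V : Type) (F : ℕ → FG L V)
  (S S' : L.Structure ℕ) (e : ℕ ≃ ℕ), RelIso S S' e → ∀ (j N : ℕ) (s : Finset (Lit F N)),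
  Ex F S j N s → Ex F S' j N s

/-- [APX] (1 h; uses `St_FIN`) Isomorphic stages.

Proof. `FJ F S j` is finite: let `x : Fin N → ℕ` be injective with range `FJ F S j`. For every
unsigned literal `p` let `t p = (p, decide (LitT F S x p))`. For every finite set `s` of such literals
`Ex F S j N s`, so `Ex F S' j N s`. Suppose that for every injective `y : Fin N → ℕ` with range
`FJ F S' j` (finitely many `y`, since `FJ F S' j` is finite) there is `p_y` such that `LitS F S' y (t p_y)` is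
false; then `s = {t p_y}` is a contradiction. So there is `y` with `LitT F S' y p ↔ LitT F S x p` for all
`p`. Let `e (x a) = y a`. `mem`, `rel` are clear (entries in `FJ F S j` are of the form `x (q i)`). `agr`:
`v l = x (p l)`, `v' l = y (p l)` for `l ∈ (F k).fv`; `LitT F S x (inl ⟨k, p⟩) ↔ (F k).Sat S v`
(`FG.sat_congr`), the same for `S'`. -/
def St_APX : Prop := ∀ (L : FirstOrder.Language.{0, 0}) (V : Type) (F : ℕ → FG L V)
  (S S' : L.Structure ℕ), Cl F → (∀ j N (s : Finset (Lit F N)), Ex F S j N s → Ex F S' j N s) →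
  ∀ j, ∃ e : FJ F S j ≃ FJ F S' j, SP F S S' j e

/-- [KOE] (1 h; uses `St_FIN`) Koenig's lemma.

Proof. As `CTQ/KON.lean`: choose `e j` for every `j` and an ultrafilter `U ≤ atTop` on `ℕ`. For
`x ∈ Core F S`, `x ∈ FJ F S i`: for all `j ≥ i` the point `(e j x).1` is in the finite set `FJ F S' i`
(`SP.mem`), so there is `g x ∈ FJ F S' i` with `(e j x).1 = g x` for `U`-almost all `j`. `g` is injective with
`range g = Core F S'` (for `y ∈ FJ F S' i` consider `(e j).symm y ∈ FJ F S i`), and preserves relations and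
the truth of `F k` ((F k).fv is finite, so for `U`-almost all `j` all the finitely many values are
given by `e j`). `wf`, `wg`: `St_FIN`. -/
def St_KOE : Prop := ∀ (L : FirstOrder.Language.{0, 0}) (V : Type) (F : ℕ → FG L V)
  (S S' : L.Structure ℕ), Cl F → (∀ j, ∃ e : FJ F S j ≃ FJ F S' j, SP F S S' j e) →
  ∃ g : Core F S → ℕ, Good F S S' (Subtype.val : Core F S → ℕ) g

/-- [CRE] (0.8 h; uses `St_SMB`, `St_MEX`, `St_IVE`, `St_APX`, `St_KOE`) Countably many cores.

Proof. `K = ModG (F 0)` is measurable: it is `{c | (F 0).Sat (toStr c) (fun _ => 0)}` (`FG.sat_of_closed`),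
`St_SMB`. Apply `Pool.Agent.Helper5.DU.ctbl_of_props` (Pool/Agent/VB/B.lean) with `n = 0` and the properties
`Ex F S j N s`, indexed by `(j : ℕ) × (N : ℕ) × Finset (Lit F N)` (countable: `(F k).fv` is finite by
`Cl.fin`, so `(F k).fv → Fin N` is finite). It gives `ρ`; let `σ m = (ρ m).1` if this is in `K` and a fixed
element of `K` otherwise. For `S ∈ K` there is `m` with `σ m ∈ K` and the same properties; `St_APX` and `St_KOE`
for `σ m` and `S`. -/
def St_CRE : Prop := ∀ (L : FirstOrder.Language.{0, 0}) [∀ n, IsEmpty (L.Functions n)]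
  [∀ n, Countable (L.Relations n)] (V : Type) (F : ℕ → FG L V), Cl F → (F 0).fv = ∅ →
  ¬ PerfK (ModG (F 0)) → (ModG (F 0)).Nonempty → ∃ σ : ℕ → L.Structure ℕ,
    (∀ m, σ m ∈ ModG (F 0)) ∧ ∀ S ∈ ModG (F 0), ∃ m, S ∈ KG F (σ m)

/-- [GFA] (0.5 h; uses `St_CLF`, `St_FRG`, `St_CRE`) Vaught's conjecture for the guarded fragment with
counting.

Proof. `St_CLF`: `F 0 = φ`, `Cl F`. If `ModG φ` is empty: `CtblK` trivially. Let `K = ModG φ` be nonempty and
`¬ PerfK K`; `σ` from `St_CRE`. `KG F (σ m) ⊆ K`: `Good.agr` for `k = 0` (`(F 0).fv = ∅`, so the condition on `v`,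
`v'` is void). By `St_FRG` `KG F (σ m)` satisfies `CtblK` or `PerfK`; the latter would give `PerfK K`. So `CtblK`
for all `m`, and the union of countably many such classes satisfies `CtblK` (`Nat.pair`). -/
def St_GFA : Prop := ∀ (L : FirstOrder.Language.{0, 0}) [∀ n, IsEmpty (L.Functions n)]
  [∀ n, Countable (L.Relations n)] (V : Type) (φ : FG L V), φ.fv = ∅ → FG.Gd 1 φ →
  CtblK (ModG φ) ∨ PerfK (ModG φ)

end GFC
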